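import Mathlib

/-!
# The large inductive dimension and filtered products

Basic facts on the large inductive dimension (as a relation `IndLT n X`, meaning `Ind X < n`)
and local structures on subsets of a product of two spaces by filtrations of the factors.
-/

namespace Pool.Agent.H901R2.IndProd

open Set Topology

universe u v

/-- `IndLT n X` says `Ind X < n`, that is `Ind X ≤ n - 1`: the space `X` has `Ind X ≤ -1` iff it
is empty, and `Ind X ≤ n` iff for every closed `A` and every open `U ⊇ A` there is an open `V`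
with `A ⊆ V ⊆ closure V ⊆ U` and `Ind (frontier V) ≤ n - 1`. -/
def IndLT : ℕ → (X : Type u) → [TopologicalSpace X] → Prop
  | 0, X, _ => IsEmpty X
  | n + 1, X, _ => ∀ A U : Set X, IsClosed A → IsOpen U → A ⊆ U →
      ∃ V : Set X, IsOpen V ∧ A ⊆ V ∧ closure V ⊆ U ∧ IndLT n (frontier V)

open Classical in
/-- The large inductive dimension, with values in `{-1, 0, 1, 2, …, ∞}`: if `k` is the least
natural number with `Ind X < k`, then `Ind X = k - 1`; if there is no such `k`, then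
`Ind X = ∞`. -/
noncomputable def Ind (X : Type u) [TopologicalSpace X] : WithTop ℤ :=
  if h : ∃ k : ℕ, IndLT k X then ((((Nat.find h : ℕ) : ℤ) - 1 : ℤ) : WithTop ℤ) else ⊤

/-- The finite sum theorem for `Ind` holds in `X`: for closed subsets `F 0, …, F n` of `X`,
`Ind (F 0 ∪ … ∪ F n) ≤ max (Ind (F 0), …, Ind (F n))`. -/
def FiniteSumThm (X : Type u) [TopologicalSpace X] : Prop :=
  ∀ (n : ℕ) (F : Fin (n + 1) → Set X), (∀ i, IsClosed (F i)) →
    Ind (⋃ i, F i : Set X) ≤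
      Finset.univ.sup' Finset.univ_nonempty (fun i : Fin (n + 1) => Ind (F i))

theorem IndLT.of_isEmpty {X : Type u} [TopologicalSpace X] (h : IsEmpty X) :
    ∀ n : ℕ, IndLT n X
  | 0 => h
  | n + 1 => fun A U _ _ _ => ⟨∅, isOpen_empty, fun x _ => (h.false x).elim, by simp,
      IndLT.of_isEmpty ⟨fun x => h.false x.1⟩ n⟩

theorem IndLT.succ {n : ℕ} : ∀ {X : Type u} [TopologicalSpace X], IndLT n X → IndLT (n + 1) X := by
  induction n with
  | zero => intro X _ h; exact IndLT.of_isEmpty h 1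
  | succ n ih =>
    intro X _ h A U hA hU hAU
    obtain ⟨V, h1, h2, h3, h4⟩ := h A U hA hU hAU
    exact ⟨V, h1, h2, h3, ih h4⟩

theorem IndLT.mono {n m : ℕ} (h : n ≤ m) {X : Type u} [TopologicalSpace X] (hX : IndLT n X) :
    IndLT m X := by
  induction h with
  | refl => exact hX
  | step _ ih => exact ih.succ

/-- `Ind X ≤ n - 1` in the sense of the relation `IndLT` and of the value `Ind`. -/
theorem ind_lt_iff (n : ℕ) (X : Type u) [TopologicalSpace X] :
    Ind X < ((n : ℤ) : WithTop ℤ) ↔ IndLT n X := by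
  classical
  unfold Ind
  by_cases h : ∃ k : ℕ, IndLT k X
  · rw [dif_pos h, WithTop.coe_lt_coe]
    constructor
    · intro hlt
      exact IndLT.mono (by omega) (Nat.find_spec h)
    · intro hn
      have := Nat.find_min' h hn
      omega
  · rw [dif_neg h]
    constructor
    · intro hlt
      exact absurd hlt not_top_lt
    · intro hn
      exact absurd ⟨n, hn⟩ h

/-- `Ind X = -1` iff `X` is empty. -/
theorem ind_eq_neg_one_iff (X : Type u) [TopologicalSpace X] :
    Ind X = ((-1 : ℤ) : WithTop ℤ) ↔ IsEmpty X := by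
  classical
  constructor
  · intro h
    have h1 : IndLT 0 X := by
      rw [← ind_lt_iff, h]
      exact WithTop.coe_lt_coe.2 (by norm_num)
    exact h1
  · intro h
    have h0 : IndLT 0 X := h
    have hex : ∃ k : ℕ, IndLT k X := ⟨0, h0⟩
    unfold Ind
    rw [dif_pos hex]
    have h1 : Nat.find hex = 0 := Nat.le_zero.1 (Nat.find_min' hex h0)
    rw [h1]
    norm_num

/-- Either `Ind X = ∞` or `Ind X = k - 1` with `k` natural and `IndLT k X`. -/
theorem ind_cases (X : Type u) [TopologicalSpace X] :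
    Ind X = ⊤ ∨ ∃ k : ℕ, Ind X = (((k : ℤ) - 1 : ℤ) : WithTop ℤ) ∧ IndLT k X := by
  classical
  by_cases h : ∃ k : ℕ, IndLT k X
  · right
    refine ⟨Nat.find h, ?_, Nat.find_spec h⟩
    unfold Ind
    rw [dif_pos h]
  · left
    unfold Ind
    rw [dif_neg h]

theorem IndLT.of_isClosedEmbedding {n : ℕ} :
    ∀ {X : Type u} {Y : Type v} [TopologicalSpace X] [TopologicalSpace Y] (f : X → Y),
      IsClosedEmbedding f → IndLT n Y → IndLT n X := by
  induction n with
  | zero =>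
    intro X Y _ _ f _ h
    exact ⟨fun x => IsEmpty.false (self := h) (f x)⟩
  | succ n ih =>
    intro X Y _ _ f hf h A U hA hU hAU
    have hA' : IsClosed (f '' A) := hf.isClosedMap A hA
    have hU' : IsOpen (f '' Uᶜ)ᶜ := (hf.isClosedMap _ hU.isClosed_compl).isOpen_compl
    have hAU' : f '' A ⊆ (f '' Uᶜ)ᶜ := by
      rintro _ ⟨a, ha, rfl⟩ ⟨b, hb, hab⟩
      rw [hf.injective hab] at hb
      exact hb (hAU ha)
    obtain ⟨V, h1, h2, h3, h4⟩ := h _ _ hA' hU' hAU'
    have hcl : closure (f ⁻¹' V) ⊆ f ⁻¹' (closure V) :=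
      hf.continuous.closure_preimage_subset V
    have hfr : frontier (f ⁻¹' V) ⊆ f ⁻¹' (frontier V) := by
      intro x hx
      rw [(h1.preimage hf.continuous).frontier_eq] at hx
      rw [h1.frontier_eq]
      exact ⟨hcl hx.1, hx.2⟩
    refine ⟨f ⁻¹' V, h1.preimage hf.continuous, fun a ha => h2 ⟨a, ha, rfl⟩, ?_, ?_⟩
    · intro x hx
      by_contra hxU
      exact h3 (hcl hx) ⟨x, hxU, rfl⟩
    · have hmaps : MapsTo f (frontier (f ⁻¹' V)) (frontier V) := hfr
      refine ih (hmaps.restrict f _ _) ?_ h4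
      have h5 : IsClosedEmbedding (f ∘ (Subtype.val : frontier (f ⁻¹' V) → X)) :=
        hf.comp isClosed_frontier.isClosedEmbedding_subtypeVal
      exact IsClosedEmbedding.of_comp (g := (Subtype.val : frontier V → Y))
        IsEmbedding.subtypeVal h5


/-- A closed subset of a subset. -/
theorem IndLT.subset {n : ℕ} {X : Type u} [TopologicalSpace X] {S T : Set X} (hT : IsClosed T)
    (hTS : T ⊆ S) (h : IndLT n S) : IndLT n T :=
  IndLT.of_isClosedEmbedding (Set.inclusion hTS)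
    (IsClosedEmbedding.of_comp (g := (Subtype.val : S → X)) IsEmbedding.subtypeVal
      hT.isClosedEmbedding_subtypeVal) h

theorem IndLT.empty {n : ℕ} {X : Type u} [TopologicalSpace X] : IndLT n (∅ : Set X) :=
  IndLT.of_isEmpty inferInstance n

theorem IndLT.univ {n : ℕ} {X : Type u} [TopologicalSpace X] (h : IndLT n X) :
    IndLT n (Set.univ : Set X) :=
  IndLT.of_isClosedEmbedding _ isClosed_univ.isClosedEmbedding_subtypeVal h

theorem IndLT.of_univ {n : ℕ} {X : Type u} [TopologicalSpace X]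
    (h : IndLT n (Set.univ : Set X)) : IndLT n X :=
  IndLT.of_isClosedEmbedding (Homeomorph.Set.univ X).symm
    (Homeomorph.Set.univ X).symm.isClosedEmbedding h

/-- Splitting a closed set of finite dimension. -/
theorem IndLT.split {X : Type u} [TopologicalSpace X] {S C U : Set X} (hS : IsClosed S)
    (hC : IsClosed C) (hU : IsOpen U) (hCU : C ⊆ U) {k : ℕ} (h : IndLT k S) :
    ∃ S1 S2 : Set X, IsClosed S1 ∧ IsClosed S2 ∧ S1 ∪ S2 = S ∧ S1 ⊆ U ∧ Disjoint C S2 ∧
      IndLT (k - 1) (S1 ∩ S2 : Set X) := by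
  cases k with
  | zero =>
    have hS0 : S = ∅ := Set.isEmpty_coe_sort.1 h
    refine ⟨∅, ∅, isClosed_empty, isClosed_empty, by simp [hS0], by simp, by simp, ?_⟩
    rw [Set.inter_self]
    exact IndLT.empty
  | succ k =>
    obtain ⟨V, h1, h2, h3, h4⟩ := h (Subtype.val ⁻¹' C) (Subtype.val ⁻¹' U)
      (hC.preimage continuous_subtype_val) (hU.preimage continuous_subtype_val)
      (preimage_mono hCU)
    have hemb : IsClosedEmbedding (Subtype.val : S → X) := hS.isClosedEmbedding_subtypeVal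
    refine ⟨Subtype.val '' closure V, Subtype.val '' Vᶜ, hemb.isClosedMap _ isClosed_closure,
      hemb.isClosedMap _ h1.isClosed_compl, ?_, ?_, ?_, ?_⟩
    · rw [← image_union]
      have : closure V ∪ Vᶜ = Set.univ := by
        apply eq_univ_of_univ_subset
        rw [← union_compl_self V]
        exact union_subset_union_left _ subset_closure
      rw [this, image_univ, Subtype.range_coe]
    · rintro _ ⟨x, hx, rfl⟩
      exact h3 hx
    · rw [Set.disjoint_left]
      rintro _ hxC ⟨x, hx, rfl⟩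
      exact hx (h2 hxC)
    · rw [← image_inter Subtype.val_injective]
      have hfr : closure V ∩ Vᶜ = frontier V := by
        rw [h1.frontier_eq, sdiff_eq]
      rw [hfr]
      simp only [Nat.add_sub_cancel]
      refine IndLT.of_isClosedEmbedding
        (IsEmbedding.homeomorphImage (f := (Subtype.val : S → X)) IsEmbedding.subtypeVal
          (frontier V)).symm (Homeomorph.isClosedEmbedding _) h4

/-- A closed subset which is the union of two closed subsets whose intersection has small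
dimension, for all pairs of disjoint closed sets, has small dimension. -/
theorem IndLT.of_partition {X : Type u} [TopologicalSpace X] {Z : Set X} (hZ : IsClosed Z)
    {m : ℕ} (h : ∀ A B : Set X, IsClosed A → IsClosed B → Disjoint A B →
      ∃ ZA ZB : Set X, IsClosed ZA ∧ IsClosed ZB ∧ ZA ∪ ZB = Z ∧ Disjoint A ZB ∧ Disjoint B ZA ∧
        IndLT m (ZA ∩ ZB : Set X)) : IndLT (m + 1) Z := by
  intro A U hA hU hAU
  have hemb : IsClosedEmbedding (Subtype.val : Z → X) := hZ.isClosedEmbedding_subtypeVal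
  obtain ⟨ZA, ZB, h1, h2, h3, h4, h5, h6⟩ := h (Subtype.val '' A) (Subtype.val '' Uᶜ)
    (hemb.isClosedMap _ hA) (hemb.isClosedMap _ hU.isClosed_compl) (by
      rw [Set.disjoint_left]
      rintro _ ⟨a, ha, rfl⟩ ⟨b, hb, hab⟩
      rw [Subtype.val_injective hab] at hb
      exact hb (hAU ha))
  have hV : IsOpen (Subtype.val ⁻¹' ZB : Set Z)ᶜ :=
    (h2.preimage continuous_subtype_val).isOpen_compl
  have hsub : (Subtype.val ⁻¹' ZB : Set Z)ᶜ ⊆ Subtype.val ⁻¹' ZA := by
    intro z hz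
    have : z.1 ∈ ZA ∪ ZB := h3 ▸ z.2
    exact this.resolve_right hz
  have hcl : closure (Subtype.val ⁻¹' ZB : Set Z)ᶜ ⊆ Subtype.val ⁻¹' ZA :=
    closure_minimal hsub (h1.preimage continuous_subtype_val)
  refine ⟨(Subtype.val ⁻¹' ZB : Set Z)ᶜ, hV, ?_, ?_, ?_⟩
  · intro a ha haZ
    exact Set.disjoint_left.1 h4 ⟨a, ha, rfl⟩ haZ
  · intro z hz
    by_contra hzU
    exact Set.disjoint_left.1 h5 ⟨z, hzU, rfl⟩ (hcl hz)
  · have hfr : frontier (Subtype.val ⁻¹' ZB : Set Z)ᶜ ⊆ Subtype.val ⁻¹' (ZA ∩ ZB) := by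
      intro z hz
      rw [hV.frontier_eq] at hz
      exact ⟨hcl hz.1, not_not.1 hz.2⟩
    have h7 : IsClosedEmbedding ((Subtype.val : Z → X) ∘
        (Subtype.val : frontier (Subtype.val ⁻¹' ZB : Set Z)ᶜ → Z)) :=
      hemb.comp isClosed_frontier.isClosedEmbedding_subtypeVal
    have hmaps : MapsTo (Subtype.val : Z → X) (frontier (Subtype.val ⁻¹' ZB : Set Z)ᶜ)
      (ZA ∩ ZB) := hfr
    refine IndLT.of_isClosedEmbedding (hmaps.restrict (Subtype.val : Z → X) _ _) ?_ h6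
    exact IsClosedEmbedding.of_comp (g := (Subtype.val : (ZA ∩ ZB : Set X) → X))
      IsEmbedding.subtypeVal h7

theorem FiniteSumThm.union {X : Type u} [TopologicalSpace X] (hX : FiniteSumThm X)
    {F G : Set X} (hF : IsClosed F) (hG : IsClosed G) {k : ℕ} (h1 : IndLT k F)
    (h2 : IndLT k G) : IndLT k (F ∪ G : Set X) := by
  have h := hX 1 ![F, G] (by
    intro i
    fin_cases i
    · exact hF
    · exact hG)
  have h3 : (⋃ i, (![F, G] : Fin 2 → Set X) i) = F ∪ G := by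
    ext x
    simp [Fin.exists_fin_two]
  rw [← ind_lt_iff]
  have h4 : Ind (⋃ i, (![F, G] : Fin 2 → Set X) i : Set X) < ((k : ℤ) : WithTop ℤ) := by
    refine lt_of_le_of_lt h ?_
    rw [Finset.sup'_lt_iff]
    intro i _
    fin_cases i
    · exact (ind_lt_iff k _).2 h1
    · exact (ind_lt_iff k _).2 h2
  rw [h3] at h4
  exact h4

/-! ### Filtrations -/

/-- A decreasing sequence of closed sets, the `i`-th of which has `Ind < P - i`. -/
structure IsFilt {X : Type u} [TopologicalSpace X] (P : ℕ) (F : ℕ → Set X) : Prop where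
  closed : ∀ i, IsClosed (F i)
  anti : Antitone F
  ind : ∀ i, IndLT (P - i) (F i)

theorem IsFilt.empty {X : Type u} [TopologicalSpace X] (P : ℕ) :
    IsFilt P (fun _ => (∅ : Set X)) :=
  ⟨fun _ => isClosed_empty, fun _ _ _ => le_rfl, fun _ => IndLT.empty⟩

theorem IsFilt.union {X : Type u} [TopologicalSpace X] (hX : FiniteSumThm X) {P : ℕ}
    {F F' : ℕ → Set X} (hF : IsFilt P F) (hF' : IsFilt P F') :
    IsFilt P (fun i => F i ∪ F' i) :=
  ⟨fun i => (hF.closed i).union (hF'.closed i),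
    fun _ _ h => union_subset_union (hF.anti h) (hF'.anti h),
    fun i => hX.union (hF.closed i) (hF'.closed i) (hF.ind i) (hF'.ind i)⟩

/-- The filtration starting with the whole space. -/
theorem IsFilt.top {X : Type u} [TopologicalSpace X] {P : ℕ} (h : IndLT P X) :
    IsFilt P (fun i => if i = 0 then (Set.univ : Set X) else ∅) := by
  refine ⟨fun i => ?_, ?_, fun i => ?_⟩
  · split
    · exact isClosed_univ
    · exact isClosed_empty
  · intro i j hij
    dsimp only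
    by_cases hj : j = 0
    · have : i = 0 := by omega
      simp [hj, this]
    · simp [hj]
  · cases i with
    | zero => exact h.univ
    | succ k => exact IndLT.empty

theorem IsFilt.split {X : Type u} [TopologicalSpace X] (hX : FiniteSumThm X) {P : ℕ}
    {F : ℕ → Set X} (hF : IsFilt P F) {C U : Set X} (hC : IsClosed C) (hU : IsOpen U)
    (hCU : C ⊆ U) :
    ∃ F1 F2 F' : ℕ → Set X, (∀ i, IsClosed (F1 i)) ∧ (∀ i, IsClosed (F2 i)) ∧
      (∀ i, F1 i ∪ F2 i = F i) ∧ (∀ i, F1 i ⊆ U) ∧ (∀ i, Disjoint C (F2 i)) ∧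
      IsFilt P F' ∧ (∀ i, F i ⊆ F' i) ∧ (∀ i, F1 i ∩ F2 i ⊆ F' (i + 1)) := by
  choose F1 F2 h1 h2 h3 h4 h5 h6 using fun i => IndLT.split (hF.closed i) hC hU hCU (hF.ind i)
  have hT : ∀ i, F1 i ∩ F2 i ⊆ F i := fun i => by
    rw [← h3 i]
    exact inter_subset_left.trans subset_union_left
  refine ⟨F1, F2, fun i => F i ∪ (match i with | 0 => ∅ | k + 1 => F1 k ∩ F2 k), h1, h2, h3, h4,
    h5, ⟨?_, ?_, ?_⟩, fun i => subset_union_left, fun i => subset_union_right⟩
  · intro i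
    cases i with
    | zero => exact (hF.closed 0).union isClosed_empty
    | succ k => exact (hF.closed (k + 1)).union ((h1 k).inter (h2 k))
  · refine antitone_nat_of_succ_le fun i => ?_
    refine union_subset ((hF.anti (Nat.le_succ i)).trans subset_union_left) ?_
    exact (hT i).trans subset_union_left
  · intro i
    cases i with
    | zero => exact hX.union (hF.closed 0) isClosed_empty (hF.ind 0) IndLT.empty
    | succ k =>
      refine hX.union (hF.closed (k + 1)) ((h1 k).inter (h2 k)) (hF.ind (k + 1)) ?_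
      have := h6 k
      rwa [Nat.sub_sub] at this

/-- The part of total index `c` of the product of two filtrations. -/
def Pr {X : Type u} {Y : Type v} (F : ℕ → Set X) (G : ℕ → Set Y) (c : ℕ) : Set (X × Y) :=
  {z | ∃ i j, i + j = c ∧ z.1 ∈ F i ∧ z.2 ∈ G j}

/-- Contained in the part of total index `c` of the product of two filtrations. -/
def Small {X : Type u} {Y : Type v} [TopologicalSpace X] [TopologicalSpace Y] (P Q c : ℕ)
    (S : Set (X × Y)) : Prop :=
  ∃ F G, IsFilt P F ∧ IsFilt Q G ∧ S ⊆ Pr F G c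

theorem Small.mono {X : Type u} {Y : Type v} [TopologicalSpace X] [TopologicalSpace Y]
    {P Q c : ℕ} {S T : Set (X × Y)} (h : Small P Q c T) (hST : S ⊆ T) : Small P Q c S := by
  obtain ⟨F, G, h1, h2, h3⟩ := h
  exact ⟨F, G, h1, h2, hST.trans h3⟩

theorem Small.empty {X : Type u} {Y : Type v} [TopologicalSpace X] [TopologicalSpace Y]
    (P Q c : ℕ) : Small P Q c (∅ : Set (X × Y)) :=
  ⟨_, _, IsFilt.empty P, IsFilt.empty Q, empty_subset _⟩

theorem Small.union {X : Type u} {Y : Type v} [TopologicalSpace X] [TopologicalSpace Y]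
    (hX : FiniteSumThm X) (hY : FiniteSumThm Y)
    {P Q c : ℕ} {S T : Set (X × Y)} (hS : Small P Q c S) (hT : Small P Q c T) :
    Small P Q c (S ∪ T) := by
  obtain ⟨F, G, h1, h2, h3⟩ := hS
  obtain ⟨F', G', h1', h2', h3'⟩ := hT
  refine ⟨_, _, h1.union hX h1', h2.union hY h2', union_subset ?_ ?_⟩
  · intro z hz
    obtain ⟨i, j, hij, hi, hj⟩ := h3 hz
    exact ⟨i, j, hij, Or.inl hi, Or.inl hj⟩
  · intro z hz
    obtain ⟨i, j, hij, hi, hj⟩ := h3' hz
    exact ⟨i, j, hij, Or.inr hi, Or.inr hj⟩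

theorem Small.eq_empty {X : Type u} {Y : Type v} [TopologicalSpace X] [TopologicalSpace Y]
    {P Q c : ℕ} {S : Set (X × Y)} (hS : Small P Q c S) (hc : P + Q ≤ c + 1) : S = ∅ := by
  obtain ⟨F, G, h1, h2, h3⟩ := hS
  rw [eq_empty_iff_forall_notMem]
  intro z hz
  obtain ⟨i, j, hij, hi, hj⟩ := h3 hz
  by_cases hiP : P ≤ i
  · have := h1.ind i
    rw [Nat.sub_eq_zero_of_le hiP] at this
    exact IsEmpty.false (self := this) ⟨_, hi⟩
  · have := h2.ind j
    rw [Nat.sub_eq_zero_of_le (by omega)] at this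
    exact IsEmpty.false (self := this) ⟨_, hj⟩

/-- Locally contained in the part of total index `c` of the product of two filtrations. -/
def LocSmall {X : Type u} {Y : Type v} [TopologicalSpace X] [TopologicalSpace Y] (P Q c : ℕ)
    (S : Set (X × Y)) : Prop :=
  ∀ w, ∃ O, IsOpen O ∧ w ∈ O ∧ Small P Q c (S ∩ O)

/-- The local splitting lemma. -/
theorem LocSmall.split {X : Type u} {Y : Type v} [TopologicalSpace X] [TopologicalSpace Y]
    [RegularSpace X] [RegularSpace Y] (hX : FiniteSumThm X) (hY : FiniteSumThm Y)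
    {P Q c : ℕ} {Z : Set (X × Y)} (hZ : IsClosed Z) (h : LocSmall P Q c Z) (w : X × Y)
    {O : Set (X × Y)} (hO : IsOpen O) (hw : w ∈ O) :
    ∃ (Z1 Z2 O' : Set (X × Y)), IsClosed Z1 ∧ IsClosed Z2 ∧ Z1 ∪ Z2 = Z ∧ Z1 ⊆ O ∧
      IsOpen O' ∧ w ∈ O' ∧ Disjoint O' Z2 ∧ Small P Q (c + 1) (Z1 ∩ Z2) := by
  obtain ⟨O₀, hO₀, hw₀, F, G, hF, hG, hFG⟩ := h w
  obtain ⟨x, y⟩ := w
  obtain ⟨U, W, hU, hW, hxU, hyW, hUW⟩ :=
    isOpen_prod_iff.1 (hO.inter hO₀) x y ⟨hw, hw₀⟩
  obtain ⟨U', ⟨hxU', hU'⟩, hclU'⟩ := (hasBasis_opens_closure x).mem_iff.1 (hU.mem_nhds hxU)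
  obtain ⟨W', ⟨hyW', hW'⟩, hclW'⟩ := (hasBasis_opens_closure y).mem_iff.1 (hW.mem_nhds hyW)
  obtain ⟨F1, F2, F', a1, a2, a3, a4, a5, a6, a7, a8⟩ :=
    hF.split hX (isClosed_closure (s := U')) hU hclU'
  obtain ⟨G1, G2, G', b1, b2, b3, b4, b5, b6, b7, b8⟩ :=
    hG.split hY (isClosed_closure (s := W')) hW hclW'
  have hF1F : ∀ i, F1 i ⊆ F i := fun i => (a3 i) ▸ subset_union_left
  have hF2F : ∀ i, F2 i ⊆ F i := fun i => (a3 i) ▸ subset_union_right
  have hG1G : ∀ i, G1 i ⊆ G i := fun i => (b3 i) ▸ subset_union_left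
  have hG2G : ∀ i, G2 i ⊆ G i := fun i => (b3 i) ▸ subset_union_right
  -- the two pieces
  refine ⟨Z ∩ ⋃ i ∈ Finset.range (c + 1), F1 i ×ˢ G1 (c - i),
    (Z \ (U ×ˢ W)) ∪ (Z ∩ ⋃ i ∈ Finset.range (c + 1),
      ((F2 i ×ˢ G (c - i)) ∪ (F i ×ˢ G2 (c - i)))), U' ×ˢ W', ?_, ?_, ?_, ?_, hU'.prod hW',
    ⟨hxU', hyW'⟩, ?_, F', G', a6, b6, ?_⟩
  · refine hZ.inter (isClosed_biUnion_finset fun i _ => (a1 i).prod (b1 _))
  · refine (hZ.sdiff (hU.prod hW)).union (hZ.inter (isClosed_biUnion_finset fun i _ => ?_))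
    exact ((a2 i).prod (hG.closed _)).union ((hF.closed i).prod (b2 _))
  · apply Subset.antisymm
    · rintro z (hz | hz | hz)
      · exact hz.1
      · exact hz.1
      · exact hz.1
    · intro z hz
      by_cases hzUW : z ∈ U ×ˢ W
      · obtain ⟨i, j, hij, hi, hj⟩ := hFG ⟨hz, (hUW hzUW).2⟩
        have hj' : c - i = j := by omega
        have hic : i ∈ Finset.range (c + 1) := by
          rw [Finset.mem_range]
          omega
        by_cases hi2 : z.1 ∈ F2 i
        · right; right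
          refine ⟨hz, mem_iUnion₂.2 ⟨i, hic, Or.inl ⟨hi2, ?_⟩⟩⟩
          rw [hj']
          exact hj
        · by_cases hj2 : z.2 ∈ G2 j
          · right; right
            refine ⟨hz, mem_iUnion₂.2 ⟨i, hic, Or.inr ⟨hi, ?_⟩⟩⟩
            rw [hj']
            exact hj2
          · left
            refine ⟨hz, mem_iUnion₂.2 ⟨i, hic, ?_, ?_⟩⟩
            · rw [← a3 i] at hi
              exact hi.resolve_right hi2
            · rw [hj']
              rw [← b3 j] at hj
              exact hj.resolve_right hj2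
      · right; left
        exact ⟨hz, hzUW⟩
  · rintro z ⟨hz, hz'⟩
    obtain ⟨i, hic, hi, hj⟩ := mem_iUnion₂.1 hz'
    exact (hUW ⟨a4 i hi, b4 _ hj⟩).1
  · rw [Set.disjoint_left]
    rintro z ⟨hz1, hz2⟩ (hz | ⟨_, hz⟩)
    · exact hz.2 ⟨hclU' (subset_closure hz1), hclW' (subset_closure hz2)⟩
    · obtain ⟨i, hic, hi | hi⟩ := mem_iUnion₂.1 hz
      · exact Set.disjoint_left.1 (a5 i) (subset_closure hz1) hi.1
      · exact Set.disjoint_left.1 (b5 _) (subset_closure hz2) hi.2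
  · rintro z ⟨⟨hz, hz1⟩, hz2⟩
    obtain ⟨i, hic, hi, hj⟩ := mem_iUnion₂.1 hz1
    rw [Finset.mem_range] at hic
    rcases hz2 with hz2 | ⟨_, hz2⟩
    · exact absurd ⟨a4 i hi, b4 _ hj⟩ hz2.2
    obtain ⟨i', hic', hz3⟩ := mem_iUnion₂.1 hz2
    rw [Finset.mem_range] at hic'
    -- membership in the two filtrations at `i'`
    have hi'F : z.1 ∈ F i' := by
      rcases hz3 with h3 | h3
      · exact hF2F i' h3.1
      · exact h3.1
    have hj'G : z.2 ∈ G (c - i') := by
      rcases hz3 with h3 | h3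
      · exact h3.2
      · exact hG2G _ h3.2
    rcases lt_trichotomy i i' with hlt | heq | hgt
    · exact ⟨i + 1, c - i, by omega, a7 _ (hF.anti (Nat.succ_le_of_lt hlt) hi'F),
        b7 _ (hG1G _ hj)⟩
    · subst heq
      rcases hz3 with h3 | h3
      · exact ⟨i + 1, c - i, by omega, a8 i ⟨hi, h3.1⟩, b7 _ (hG1G _ hj)⟩
      · exact ⟨i, c - i + 1, by omega, a7 _ (hF1F _ hi), b8 _ ⟨hj, h3.2⟩⟩
    · refine ⟨i, c - i + 1, by omega, a7 _ (hF1F _ hi), b7 _ (hG.anti ?_ hj'G)⟩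
      omega

/-! ### Strongly paracompact spaces -/

/-- A space is strongly paracompact if every open cover of it has a star-finite open
refinement, that is an open cover each of whose members is contained in a member of the given
cover and meets only finitely many members. -/
def StronglyParacompact (W : Type u) [TopologicalSpace W] : Prop :=
  ∀ 𝒰 : Set (Set W), (∀ U ∈ 𝒰, IsOpen U) → ⋃₀ 𝒰 = Set.univ →
    ∃ 𝒱 : Set (Set W), (∀ V ∈ 𝒱, IsOpen V) ∧ ⋃₀ 𝒱 = Set.univ ∧ (∀ V ∈ 𝒱, ∃ U ∈ 𝒰, V ⊆ U) ∧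
      ∀ V ∈ 𝒱, {V' ∈ 𝒱 | (V ∩ V').Nonempty}.Finite

/-- A locally finite relation has countable classes of points reachable from a point. -/
theorem countable_reach {ι : Type u} (r : ι → ι → Prop) (h : ∀ i, {j | r i j}.Finite) (i : ι) :
    {j | Relation.ReflTransGen r i j}.Countable := by
  let B : ℕ → Set ι := fun n => Nat.rec {i} (fun _ S => ⋃ j ∈ S, {k | r j k}) n
  have hB : ∀ n, (B n).Finite := by
    intro n
    induction n with
    | zero => exact finite_singleton i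
    | succ n ih => exact ih.biUnion fun j _ => h j
  refine (countable_iUnion fun n => (hB n).countable).mono ?_
  intro j hj
  induction hj with
  | refl => exact mem_iUnion.2 ⟨0, rfl⟩
  | tail _ hbc ih =>
    obtain ⟨n, hn⟩ := mem_iUnion.1 ih
    exact mem_iUnion.2 ⟨n + 1, mem_iUnion₂.2 ⟨_, hn, hbc⟩⟩

/-- From local splittings to a partition, in a strongly paracompact space. -/
theorem StronglyParacompact.partition {W : Type u} [TopologicalSpace W]
    (hW : StronglyParacompact W) {Z : Set W} (T : Set W → Prop) (hT0 : T ∅)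
    (hTm : ∀ S S', S ⊆ S' → T S' → T S) (hTu : ∀ S S', T S → T S' → T (S ∪ S'))
    (hloc : ∀ w, ∀ O, IsOpen O → w ∈ O → ∃ Z1 Z2 O' : Set W, IsClosed Z1 ∧ IsClosed Z2 ∧
      Z1 ∪ Z2 = Z ∧ Z1 ⊆ O ∧ IsOpen O' ∧ w ∈ O' ∧ Disjoint O' Z2 ∧ T (Z1 ∩ Z2))
    {A B : Set W} (hA : IsClosed A) (hB : IsClosed B) (hAB : Disjoint A B) :
    ∃ ZA ZB : Set W, IsClosed ZA ∧ IsClosed ZB ∧ ZA ∪ ZB = Z ∧ Disjoint A ZB ∧ Disjoint B ZA ∧
      ∀ w, ∃ O, IsOpen O ∧ w ∈ O ∧ T (ZA ∩ ZB ∩ O) := by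
  classical
  -- choose the local splittings
  have h1 : ∀ w : W, ∃ Z1 Z2 O' : Set W, IsClosed Z1 ∧ IsClosed Z2 ∧
      Z1 ∪ Z2 = Z ∧ (Disjoint A Z1 ∨ Disjoint B Z1) ∧ IsOpen O' ∧ w ∈ O' ∧ Disjoint O' Z2 ∧
      T (Z1 ∩ Z2) := by
    intro w
    by_cases hw : w ∈ A
    · obtain ⟨Z1, Z2, O', a1, a2, a3, a4, a5⟩ := hloc w Bᶜ hB.isOpen_compl
        (Set.disjoint_left.1 hAB hw)
      exact ⟨Z1, Z2, O', a1, a2, a3, Or.inr (disjoint_compl_right.mono_right a4), a5⟩
    · obtain ⟨Z1, Z2, O', a1, a2, a3, a4, a5⟩ := hloc w Aᶜ hA.isOpen_compl hw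
      exact ⟨Z1, Z2, O', a1, a2, a3, Or.inl (disjoint_compl_right.mono_right a4), a5⟩
  choose Z1 Z2 O' c1 c2 c3 c4 c5 c6 c7 c8 using h1
  obtain ⟨𝒱, d1, d2, d3, d4⟩ := hW (range O') (by rintro _ ⟨w, rfl⟩; exact c5 w) (by
    apply eq_univ_of_forall
    intro w
    exact ⟨O' w, ⟨w, rfl⟩, c6 w⟩)
  have d3' : ∀ V : 𝒱, ∃ w, (V : Set W) ⊆ O' w := by
    rintro ⟨V, hV⟩
    obtain ⟨_, ⟨w, rfl⟩, hw⟩ := d3 V hV
    exact ⟨w, hw⟩
  choose p hp using d3'
  -- the chain relation
  let r : 𝒱 → 𝒱 → Prop := fun V V' => ((V : Set W) ∩ V').Nonempty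
  have hrsymm : ∀ V V', r V V' → r V' V := fun V V' h => by
    change ((V' : Set W) ∩ V).Nonempty
    rw [inter_comm]
    exact h
  have hrfin : ∀ V, {V' | r V V'}.Finite := by
    rintro ⟨V, hV⟩
    refine Finite.of_finite_image (f := Subtype.val) ((d4 V hV).subset ?_)
      Subtype.val_injective.injOn
    rintro _ ⟨V', hV', rfl⟩
    exact ⟨V'.2, hV'⟩
  let s : 𝒱 → 𝒱 → Prop := Relation.ReflTransGen r
  have hs_refl : ∀ V, s V V := fun V => Relation.ReflTransGen.refl
  have hs_symm : ∀ V V', s V V' → s V' V := fun V V' h => by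
    induction h with
    | refl => exact Relation.ReflTransGen.refl
    | tail _ hbc ih => exact (Relation.ReflTransGen.single (hrsymm _ _ hbc)).trans ih
  have hs_trans : ∀ V V' V'', s V V' → s V' V'' → s V V'' := fun V V' V'' h h' => h.trans h'
  have hscount : ∀ V, {V' | s V V'}.Countable := fun V => countable_reach r hrfin V
  let S : Setoid 𝒱 := ⟨s, hs_refl, fun h => hs_symm _ _ h, fun h h' => hs_trans _ _ _ h h'⟩
  have henum : ∀ q : Quotient S, ∃ f : 𝒱 → ℕ, InjOn f {V | (⟦V⟧ : Quotient S) = q} := by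
    intro q
    induction q using Quotient.inductionOn with
    | h V =>
      rw [← Set.countable_iff_exists_injOn]
      refine (hscount V).mono ?_
      intro V' hV'
      exact hs_symm _ _ (Quotient.exact hV')
  choose f hf using henum
  let e : 𝒱 → ℕ := fun V => f ⟦V⟧ V
  have he : ∀ V V', s V V' → e V = e V' → V = V' := by
    intro V V' h hh
    have hq : (⟦V⟧ : Quotient S) = ⟦V'⟧ := Quotient.sound h
    refine hf ⟦V⟧ rfl hq.symm ?_
    change f ⟦V⟧ V = f ⟦V'⟧ V' at hh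
    rw [hh, hq]
  -- the clopen pieces
  let Pi : 𝒱 → Set W := fun V => ⋃ V' : {V' // s V V'}, (V'.1 : Set W)
  have hPi_open : ∀ V, IsOpen (Pi V) := fun V => isOpen_iUnion fun V' => d1 _ V'.1.2
  have hPi_of : ∀ (V V' : 𝒱) (z : W), z ∈ (V' : Set W) → z ∈ Pi V → s V V' := by
    intro V V' z hz hzP
    obtain ⟨⟨V'', hV''⟩, hz''⟩ := mem_iUnion.1 hzP
    exact hs_trans _ _ _ hV'' (Relation.ReflTransGen.single ⟨z, hz'', hz⟩)
  have hcov : ∀ z : W, ∃ V : 𝒱, z ∈ (V : Set W) := by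
    intro z
    obtain ⟨V, hV, hz⟩ : z ∈ ⋃₀ 𝒱 := by rw [d2]; trivial
    exact ⟨⟨V, hV⟩, hz⟩
  have hPi_closed : ∀ V, IsClosed (Pi V) := by
    intro V
    have : (Pi V)ᶜ = ⋃ V' : {V' : 𝒱 // ¬ s V V'}, (V'.1 : Set W) := by
      ext z
      constructor
      · intro hz
        obtain ⟨V', hV'⟩ := hcov z
        refine mem_iUnion.2 ⟨⟨V', fun h => hz (mem_iUnion.2 ⟨⟨V', h⟩, hV'⟩)⟩, hV'⟩
      · intro hz hzP
        obtain ⟨⟨V', hV'⟩, hz'⟩ := mem_iUnion.1 hz
        exact hV' (hPi_of V V' z hz' hzP)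
    rw [← isOpen_compl_iff, this]
    exact isOpen_iUnion fun V' => d1 _ V'.1.2
  -- the partition into small pieces
  let Zs : 𝒱 → Set W := fun V =>
    Z1 (p V) ∩ Pi V ∩ ⋂ V' : {V' // s V V' ∧ e V' < e V}, Z2 (p V'.1)
  have hZs_closed : ∀ V, IsClosed (Zs V) := fun V =>
    ((c1 _).inter (hPi_closed V)).inter (isClosed_iInter fun V' => c2 _)
  have hZs_sub : ∀ V, Zs V ⊆ Z := by
    intro V z hz
    rw [← c3 (p V)]
    exact Or.inl hz.1.1
  have hZs_cov : ∀ z ∈ Z, ∃ V, z ∈ Zs V := by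
    intro z hz
    obtain ⟨V0, hV0⟩ := hcov z
    have hex : ∃ n, ∃ V, s V0 V ∧ z ∉ Z2 (p V) ∧ e V = n :=
      ⟨e V0, V0, hs_refl V0, Set.disjoint_left.1 (c7 _) (hp V0 hV0), rfl⟩
    obtain ⟨V, hV1, hV2, hV3⟩ := Nat.find_spec hex
    refine ⟨V, ⟨?_, mem_iUnion.2 ⟨⟨V0, hs_symm _ _ hV1⟩, hV0⟩⟩, ?_⟩
    · rw [← c3 (p V)] at hz
      exact hz.resolve_right hV2
    · rw [mem_iInter]
      rintro ⟨V', hV', hlt⟩
      by_contra hzV'
      refine Nat.find_min hex (hV3 ▸ hlt) ⟨V', hs_trans _ _ _ hV1 hV', hzV', rfl⟩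
  have hfin : ∀ V0 : 𝒱, {V | (Zs V ∩ (V0 : Set W)).Nonempty}.Finite := by
    intro V0
    have hsub : {V | (Zs V ∩ (V0 : Set W)).Nonempty} ⊆ {V | s V0 V ∧ e V ≤ e V0} := by
      rintro V ⟨z, hz, hzV0⟩
      have hsV : s V V0 := hPi_of V V0 z hzV0 hz.1.2
      refine ⟨hs_symm _ _ hsV, ?_⟩
      by_contra hlt
      rw [not_le] at hlt
      have h2 := mem_iInter.1 hz.2 ⟨V0, hsV, hlt⟩
      exact Set.disjoint_left.1 (c7 _) (hp V0 hzV0) h2
    refine Finite.subset ?_ hsub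
    refine Finite.of_finite_image (f := e) ((finite_Iic (e V0)).subset ?_) ?_
    · rintro _ ⟨V, hV, rfl⟩
      exact hV.2
    · intro V hV V' hV' h
      exact he _ _ (hs_trans _ _ _ (hs_symm _ _ hV.1) hV'.1) h
  have hlf : LocallyFinite Zs := by
    intro z
    obtain ⟨V0, hV0⟩ := hcov z
    exact ⟨V0, (d1 _ V0.2).mem_nhds hV0, hfin V0⟩
  -- overlaps of two pieces
  have hover : ∀ V V' : 𝒱, V ≠ V' → T (Zs V ∩ Zs V') := by
    intro V V' hne
    by_cases hsV : s V V'
    · rcases lt_trichotomy (e V) (e V') with hlt | heq | hgt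
      · refine hTm _ _ ?_ (c8 (p V))
        rintro z ⟨hz, hz'⟩
        exact ⟨hz.1.1, mem_iInter.1 hz'.2 ⟨V, hs_symm _ _ hsV, hlt⟩⟩
      · exact absurd (he _ _ hsV heq) hne
      · refine hTm _ _ ?_ (c8 (p V'))
        rintro z ⟨hz, hz'⟩
        exact ⟨hz'.1.1, mem_iInter.1 hz.2 ⟨V', hsV, hgt⟩⟩
    · refine hTm _ _ ?_ hT0
      rintro z ⟨hz, hz'⟩
      obtain ⟨V0, hV0⟩ := hcov z
      exact hsV (hs_trans _ _ _ (hPi_of V V0 z hV0 hz.1.2)
        (hs_symm _ _ (hPi_of V' V0 z hV0 hz'.1.2)))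
  have hTfin : ∀ (F : Set (𝒱 × 𝒱)), F.Finite → (∀ x ∈ F, x.1 ≠ x.2) →
      T (⋃ x ∈ F, Zs x.1 ∩ Zs x.2) := by
    intro F hF
    induction F, hF using Set.Finite.induction_on with
    | empty => intro _; simpa using hT0
    | insert _ _ ih =>
      intro hne
      rw [biUnion_insert]
      exact hTu _ _ (hover _ _ (hne _ (mem_insert _ _)))
        (ih fun x hx => hne x (mem_insert_of_mem _ hx))
  refine ⟨⋃ V : {V // Disjoint B (Z1 (p V))}, Zs V.1, ⋃ V : {V // ¬ Disjoint B (Z1 (p V))}, Zs V.1,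
    ?_, ?_, ?_, ?_, ?_, ?_⟩
  · exact (hlf.comp_injective Subtype.val_injective).isClosed_iUnion fun V => hZs_closed _
  · exact (hlf.comp_injective Subtype.val_injective).isClosed_iUnion fun V => hZs_closed _
  · apply Subset.antisymm
    · exact union_subset (iUnion_subset fun V => hZs_sub _) (iUnion_subset fun V => hZs_sub _)
    · intro z hz
      obtain ⟨V, hV⟩ := hZs_cov z hz
      by_cases hd : Disjoint B (Z1 (p V))
      · exact Or.inl (mem_iUnion.2 ⟨⟨V, hd⟩, hV⟩)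
      · exact Or.inr (mem_iUnion.2 ⟨⟨V, hd⟩, hV⟩)
  · rw [Set.disjoint_left]
    intro z hzA hz
    obtain ⟨⟨V, hV⟩, hz'⟩ := mem_iUnion.1 hz
    exact Set.disjoint_left.1 ((c4 (p V)).resolve_right hV) hzA hz'.1.1
  · rw [Set.disjoint_left]
    intro z hzB hz
    obtain ⟨⟨V, hV⟩, hz'⟩ := mem_iUnion.1 hz
    exact Set.disjoint_left.1 hV hzB hz'.1.1
  · intro w
    obtain ⟨V0, hV0⟩ := hcov w
    refine ⟨V0, d1 _ V0.2, hV0, hTm _ _ ?_ (hTfin
      (({V | (Zs V ∩ (V0 : Set W)).Nonempty} ×ˢ {V | (Zs V ∩ (V0 : Set W)).Nonempty}) ∩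
        {x | x.1 ≠ x.2}) (((hfin V0).prod (hfin V0)).inter_of_left _) fun x hx => hx.2)⟩
    rintro z ⟨⟨hz1, hz2⟩, hz0⟩
    obtain ⟨⟨V, hV⟩, hzV⟩ := mem_iUnion.1 hz1
    obtain ⟨⟨V', hV'⟩, hzV'⟩ := mem_iUnion.1 hz2
    refine mem_iUnion₂.2 ⟨(V, V'), ⟨⟨⟨z, hzV, hz0⟩, ⟨z, hzV', hz0⟩⟩, ?_⟩, hzV, hzV'⟩
    rintro (rfl : V = V')
    exact hV' hV

/-- The main induction. -/
theorem indLT_of_locSmall {X : Type u} {Y : Type v} [TopologicalSpace X] [TopologicalSpace Y]
    [RegularSpace X] [RegularSpace Y] (hX : FiniteSumThm X) (hY : FiniteSumThm Y)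
    (hXY : StronglyParacompact (X × Y)) {P Q : ℕ} : ∀ (m c : ℕ) (Z : Set (X × Y)), IsClosed Z →
      LocSmall P Q c Z → P + Q ≤ c + m + 1 → IndLT m Z := by
  intro m
  induction m with
  | zero =>
    intro c Z _ hL hc
    refine ⟨fun z => ?_⟩
    obtain ⟨O, _, hzO, hO⟩ := hL z.1
    have h0 := hO.eq_empty (by omega)
    exact notMem_empty z.1 (h0 ▸ ⟨z.2, hzO⟩)
  | succ m ih =>
    intro c Z hZ hL hc
    refine IndLT.of_partition hZ fun A B hA hB hAB => ?_
    obtain ⟨ZA, ZB, h1, h2, h3, h4, h5, h6⟩ := hXY.partition (Z := Z) (Small P Q (c + 1))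
      (Small.empty _ _ _) (fun S S' h h' => h'.mono h) (fun S S' h h' => Small.union hX hY h h')
      (fun w O hO hw => hL.split hX hY hZ w hO hw) hA hB hAB
    exact ⟨ZA, ZB, h1, h2, h3, h4, h5, ih (c + 1) _ (h1.inter h2) h6 (by omega)⟩

/-- The product theorem for the relation `IndLT`. -/
theorem indLT_prod {X : Type u} {Y : Type v} [TopologicalSpace X] [TopologicalSpace Y]
    [RegularSpace X] [RegularSpace Y] (hX : FiniteSumThm X) (hY : FiniteSumThm Y)
    (hXY : StronglyParacompact (X × Y)) {P Q : ℕ} (hP : IndLT P X) (hQ : IndLT Q Y) :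
    IndLT (P + Q - 1) (X × Y) := by
  refine IndLT.of_univ (indLT_of_locSmall hX hY hXY (P := P) (Q := Q) (P + Q - 1) 0 Set.univ
    isClosed_univ ?_ (by omega))
  intro w
  refine ⟨Set.univ, isOpen_univ, mem_univ _, _, _, IsFilt.top hP, IsFilt.top hQ, ?_⟩
  intro z _
  exact ⟨0, 0, rfl, by simp, by simp⟩

end Pool.Agent.H901R2.IndProd
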