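import Mathlib

/-!
Finite Parseval inequality for correlations with a sequence whose exponential sums are small.
-/

set_option autoImplicit false

open Finset

namespace Pool.Agent.H901R2.MD

/-- `e(j ξ / M)` -/
noncomputable def ee (M : ℕ) (j : ℤ) (ξ : ℕ) : ℂ :=
  Complex.exp (2 * Real.pi * Complex.I * (j * ξ / M))

lemma ee_add (M : ℕ) (i j : ℤ) (ξ : ℕ) : ee M (i + j) ξ = ee M i ξ * ee M j ξ := by
  unfold ee
  rw [← Complex.exp_add]
  congr 1
  push_cast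
  ring

lemma ee_zero (M : ℕ) (ξ : ℕ) : ee M 0 ξ = 1 := by simp [ee]

lemma ee_conj (M : ℕ) (j : ℤ) (ξ : ℕ) : (starRingEnd ℂ) (ee M j ξ) = ee M (-j) ξ := by
  unfold ee
  rw [← Complex.exp_conj]
  congr 1
  simp only [map_mul, map_div₀, Complex.conj_I, Complex.conj_ofReal, map_ofNat, map_intCast,
    map_natCast, Int.cast_neg]
  ring

lemma ee_pow (M : ℕ) (j : ℤ) (ξ : ℕ) : ee M j ξ = (ee M j 1) ^ ξ := by
  unfold ee
  rw [← Complex.exp_nat_mul]
  congr 1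
  push_cast
  ring

lemma ee_one_pow_M {M : ℕ} (hM : 0 < M) (j : ℤ) : (ee M j 1) ^ M = 1 := by
  have hM' : (M : ℂ) ≠ 0 := by exact_mod_cast hM.ne'
  unfold ee
  rw [← Complex.exp_nat_mul, Complex.exp_eq_one_iff]
  refine ⟨j, ?_⟩
  field_simp
  push_cast
  ring

lemma ee_one_ne {M : ℕ} (hM : 0 < M) {j : ℤ} (hj : |j| < M) (hj0 : j ≠ 0) : ee M j 1 ≠ 1 := by
  intro h
  have hM' : (M : ℂ) ≠ 0 := by exact_mod_cast hM.ne'
  unfold ee at h
  rw [Complex.exp_eq_one_iff] at h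
  obtain ⟨n, hn⟩ := h
  have h2 : (2 * Real.pi * Complex.I : ℂ) ≠ 0 := Complex.two_pi_I_ne_zero
  have h3 : (j : ℂ) / M = n := by
    have h4 : (2 * Real.pi * Complex.I : ℂ) * ((j : ℂ) / M) = (2 * Real.pi * Complex.I) * n := by
      rw [mul_comm _ (n : ℂ)]
      rw [← hn]
      push_cast
      ring
    exact mul_left_cancel₀ h2 h4
  rw [div_eq_iff hM'] at h3
  have h5 : j = n * M := by exact_mod_cast h3
  have h6 : n ≠ 0 := by
    rintro rfl
    simp at h5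
    exact hj0 h5
  have h7 : (M : ℤ) ≤ |j| := by
    rw [h5, abs_mul, Nat.abs_cast]
    have : 1 ≤ |n| := Int.one_le_abs h6
    nlinarith
  omega

lemma orth {M : ℕ} (hM : 0 < M) {j : ℤ} (hj : |j| < M) :
    ∑ ξ ∈ range M, ee M j ξ = if j = 0 then (M : ℂ) else 0 := by
  split_ifs with h0
  · subst h0
    simp [ee_zero]
  · have h1 := ee_one_ne hM hj h0
    have h2 := ee_one_pow_M hM j
    rw [sum_congr rfl (fun ξ _ => ee_pow M j ξ), geom_sum_eq h1, h2]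
    simp

/-- Parseval. -/
lemma parseval {M L : ℕ} (hM : 0 < M) (hL : L ≤ M) (a : ℕ → ℂ) :
    ∑ ξ ∈ range M, ‖∑ n ∈ range L, a n * ee M n ξ‖ ^ 2 = M * ∑ n ∈ range L, ‖a n‖ ^ 2 := by
  have h : ∀ ξ, ((‖∑ n ∈ range L, a n * ee M n ξ‖ ^ 2 : ℝ) : ℂ) =
      ∑ n ∈ range L, ∑ k ∈ range L, a n * (starRingEnd ℂ) (a k) * ee M (n - k) ξ := by
    intro ξ
    rw [Complex.ofReal_pow, ← Complex.mul_conj', map_sum, sum_mul_sum]
    apply sum_congr rfl
    intro n _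
    apply sum_congr rfl
    intro k _
    rw [map_mul, ee_conj, sub_eq_add_neg, ee_add]
    ring
  have h2 : ((∑ ξ ∈ range M, ‖∑ n ∈ range L, a n * ee M n ξ‖ ^ 2 : ℝ) : ℂ) =
      ((M * ∑ n ∈ range L, ‖a n‖ ^ 2 : ℝ) : ℂ) := by
    rw [Complex.ofReal_sum, sum_congr rfl (fun ξ _ => h ξ), sum_comm]
    simp_rw [sum_comm (s := range M), ← mul_sum]
    push_cast
    rw [mul_sum]
    apply sum_congr rfl
    intro n hn
    rw [mem_range] at hn
    rw [sum_eq_single n]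
    · rw [sub_self, orth hM (by simpa using hM), if_pos rfl, Complex.mul_conj']
      ring
    · intro k hk hkn
      rw [mem_range] at hk
      rw [orth hM (j := (n : ℤ) - k) (by rw [abs_lt]; omega), if_neg (by omega), mul_zero]
    · intro h
      exact absurd (mem_range.mpr hn) h
  exact_mod_cast h2

/-- Bessel. -/
lemma bessel {M K : ℕ} (hM : 0 < M) (hK : K ≤ M) (f : ℕ → ℂ) (b : ℕ → ℂ)
    (hb : ∀ k, k < K → (M : ℂ) * b k = ∑ ξ ∈ range M, f ξ * ee M (-(k : ℤ)) ξ) :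
    M * ∑ k ∈ range K, ‖b k‖ ^ 2 ≤ ∑ ξ ∈ range M, ‖f ξ‖ ^ 2 := by
  set g : ℕ → ℂ := fun ξ => ∑ k ∈ range K, b k * ee M k ξ with hg
  have h1 : ∑ ξ ∈ range M, ‖g ξ‖ ^ 2 = M * ∑ k ∈ range K, ‖b k‖ ^ 2 := parseval hM hK b
  have h2 : ∑ ξ ∈ range M, f ξ * (starRingEnd ℂ) (g ξ) = ((M * ∑ k ∈ range K, ‖b k‖ ^ 2 : ℝ) : ℂ) := by
    simp only [hg, map_sum, map_mul, ee_conj, mul_sum]
    rw [sum_comm]
    push_cast
    apply sum_congr rfl
    intro k hk
    rw [mem_range] at hk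
    have h3 : ∑ ξ ∈ range M, f ξ * ((starRingEnd ℂ) (b k) * ee M (-(k : ℤ)) ξ) =
        (starRingEnd ℂ) (b k) * ∑ ξ ∈ range M, f ξ * ee M (-(k : ℤ)) ξ := by
      rw [mul_sum]
      apply sum_congr rfl
      intro ξ _
      ring
    rw [h3, ← hb k hk, ← Complex.conj_mul']
    ring
  have h4 : ∀ ξ, 0 ≤ ‖f ξ‖ ^ 2 - 2 * (f ξ * (starRingEnd ℂ) (g ξ)).re + ‖g ξ‖ ^ 2 := by
    intro ξ
    have : ‖f ξ - g ξ‖ ^ 2 = ‖f ξ‖ ^ 2 - 2 * (f ξ * (starRingEnd ℂ) (g ξ)).re + ‖g ξ‖ ^ 2 := by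
      rw [← Complex.normSq_eq_norm_sq, ← Complex.normSq_eq_norm_sq, ← Complex.normSq_eq_norm_sq,
        Complex.normSq_sub]
      ring
    rw [← this]
    positivity
  have h5 : 0 ≤ ∑ ξ ∈ range M, (‖f ξ‖ ^ 2 - 2 * (f ξ * (starRingEnd ℂ) (g ξ)).re + ‖g ξ‖ ^ 2) :=
    sum_nonneg (fun ξ _ => h4 ξ)
  rw [sum_add_distrib, sum_sub_distrib, ← mul_sum, h1] at h5
  have h6 : ∑ ξ ∈ range M, (f ξ * (starRingEnd ℂ) (g ξ)).re = M * ∑ k ∈ range K, ‖b k‖ ^ 2 := by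
    have := congrArg Complex.re h2
    rw [Complex.re_sum, Complex.ofReal_re] at this
    exact this
  rw [h6] at h5
  linarith

/-- The main inequality: correlations of `G` with `c`. -/
theorem corr_bound (G c : ℕ → ℝ) (N m K : ℕ) (hG : ∀ n, N ≤ n → G n = 0) {E : ℝ}
    (hE : ∀ α : ℝ, ‖∑ l ∈ range m, (c l : ℂ) * Complex.exp (2 * Real.pi * Complex.I * (l * α))‖ ≤ E) :
    ∑ k ∈ range K, (∑ l ∈ range m, G (k + l) * c l) ^ 2 ≤ E ^ 2 * ∑ n ∈ range N, (G n) ^ 2 := by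
  have hE0 : 0 ≤ E := (norm_nonneg _).trans (hE 0)
  set M : ℕ := N + m + K + 1 with hMdef
  have hM : 0 < M := by omega
  have hM' : (M : ℂ) ≠ 0 := by exact_mod_cast hM.ne'
  set U : ℕ → ℂ := fun ξ => ∑ n ∈ range N, (G n : ℂ) * ee M n ξ with hU
  set V : ℕ → ℂ := fun ξ => ∑ l ∈ range m, (c l : ℂ) * ee M (-(l : ℤ)) ξ with hV
  have hVE : ∀ ξ, ‖V ξ‖ ≤ E := by
    intro ξ
    have h1 := hE (-(ξ / M))
    have h2 : V ξ = ∑ l ∈ range m, (c l : ℂ) *
        Complex.exp (2 * Real.pi * Complex.I * (l * ((-(ξ / M) : ℝ) : ℂ))) := by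
      simp only [hV, ee]
      apply sum_congr rfl
      intro l _
      congr 2
      push_cast
      ring
    rw [h2]
    exact h1
  have hb : ∀ k, k < K → (M : ℂ) * ((∑ l ∈ range m, G (k + l) * c l : ℝ) : ℂ) =
      ∑ ξ ∈ range M, (U ξ * V ξ) * ee M (-(k : ℤ)) ξ := by
    intro k hk
    have h1 : ∀ ξ, (U ξ * V ξ) * ee M (-(k : ℤ)) ξ = ∑ n ∈ range N, ∑ l ∈ range m,
        (G n : ℂ) * (c l : ℂ) * ee M ((n : ℤ) - l - k) ξ := by
      intro ξ
      simp only [hU, hV]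
      rw [sum_mul_sum, sum_mul]
      apply sum_congr rfl
      intro n _
      rw [sum_mul]
      apply sum_congr rfl
      intro l _
      rw [sub_eq_add_neg, sub_eq_add_neg, ee_add, ee_add]
      ring
    rw [sum_congr rfl (fun ξ _ => h1 ξ), sum_comm]
    have h2 : ∀ n ∈ range N, ∑ ξ ∈ range M, ∑ l ∈ range m,
        (G n : ℂ) * (c l : ℂ) * ee M ((n : ℤ) - l - k) ξ =
        ∑ l ∈ range m, if n = k + l then (M : ℂ) * ((G n : ℂ) * (c l : ℂ)) else 0 := by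
      intro n hn
      rw [mem_range] at hn
      rw [sum_comm]
      apply sum_congr rfl
      intro l hl
      rw [mem_range] at hl
      rw [← mul_sum, orth hM (j := (n : ℤ) - l - k) (by rw [abs_lt]; omega)]
      by_cases h : n = k + l
      · rw [if_pos h, if_pos (by omega)]
        ring
      · rw [if_neg h, if_neg (by omega), mul_zero]
    rw [sum_congr rfl h2, sum_comm]
    push_cast
    rw [mul_sum]
    apply sum_congr rfl
    intro l _
    rw [sum_ite_eq']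
    by_cases h : k + l < N
    · rw [if_pos (mem_range.mpr h)]
    · rw [if_neg (by simpa using h), hG _ (not_lt.mp h)]
      simp
  have hbes := bessel hM (K := K) (by omega) (fun ξ => U ξ * V ξ)
    (fun k => ((∑ l ∈ range m, G (k + l) * c l : ℝ) : ℂ)) hb
  have hpar := parseval hM (L := N) (by omega) (fun n => (G n : ℂ))
  simp only [Complex.norm_real, Real.norm_eq_abs, sq_abs] at hbes hpar
  have h3 : ∑ ξ ∈ range M, ‖U ξ * V ξ‖ ^ 2 ≤ E ^ 2 * (M * ∑ n ∈ range N, (G n) ^ 2) := by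
    rw [← hpar, mul_sum]
    apply sum_le_sum
    intro ξ _
    rw [norm_mul, mul_pow, mul_comm]
    apply mul_le_mul_of_nonneg_right _ (by positivity)
    exact pow_le_pow_left₀ (norm_nonneg _) (hVE ξ) 2
  have h4 := hbes.trans h3
  have hM'' : (0 : ℝ) < M := by exact_mod_cast hM
  have h5 : (M : ℝ) * ∑ k ∈ range K, (∑ l ∈ range m, G (k + l) * c l) ^ 2 ≤
      M * (E ^ 2 * ∑ n ∈ range N, (G n) ^ 2) := by
    refine h4.trans (le_of_eq ?_)
    ring
  exact le_of_mul_le_mul_left h5 hM''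

end Pool.Agent.H901R2.MD
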