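import Pool.Agent.H901R2.MD1

/-!
Universal bound for the set of times at which an eventually constant sequence correlates with the
Moebius function.
-/

set_option autoImplicit false

open Finset Filter Topology

namespace Pool.Agent.H901R2.MD

/-- Moebius function, real valued -/
noncomputable def mu (n : ℕ) : ℝ := ((ArithmeticFunction.moebius n : ℤ) : ℝ)

lemma abs_mu_le (n : ℕ) : |mu n| ≤ 1 := by
  unfold mu
  rw [← Int.cast_abs]
  exact_mod_cast ArithmeticFunction.abs_moebius_le_one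

/-- analytic input: a bound for all exponential sums of the Moebius function -/
structure Input where
  E : ℕ → ℝ
  bound : ∀ (m : ℕ) (α : ℝ),
    ‖∑ l ∈ range m, (mu l : ℂ) * Complex.exp (2 * Real.pi * Complex.I * (l * α))‖ ≤ E m
  lim : Tendsto (fun m : ℕ => E m / m) atTop (𝓝 0)
  summ : Summable (fun m : ℕ => E m ^ 2 / (m : ℝ) ^ 3)

variable (I : Input)

lemma Input.nonneg (m : ℕ) : 0 ≤ I.E m := (norm_nonneg _).trans (I.bound m 0)

/-- bound for the shifted sums -/
lemma Input.shift (m r : ℕ) (α : ℝ) :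
    ‖∑ l ∈ range m, (mu (l + r) : ℂ) * Complex.exp (2 * Real.pi * Complex.I * (l * α))‖ ≤
      I.E (m + r) + r := by
  have h1 : ∑ l ∈ range m, (mu (l + r) : ℂ) * Complex.exp (2 * Real.pi * Complex.I * (l * α)) =
      Complex.exp (-(2 * Real.pi * Complex.I * (r * α))) *
      (∑ l ∈ range (m + r), (mu l : ℂ) * Complex.exp (2 * Real.pi * Complex.I * (l * α)) -
        ∑ l ∈ range r, (mu l : ℂ) * Complex.exp (2 * Real.pi * Complex.I * (l * α))) := by
    rw [add_comm m r, sum_range_add, add_sub_cancel_left, mul_sum]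
    apply sum_congr rfl
    intro l _
    have : Complex.exp (2 * Real.pi * Complex.I * (l * α)) =
        Complex.exp (-(2 * Real.pi * Complex.I * (r * α))) *
          Complex.exp (2 * Real.pi * Complex.I * (((r + l : ℕ) : ℂ) * α)) := by
      rw [← Complex.exp_add]
      congr 1
      push_cast
      ring
    rw [this, add_comm l r]
    ring
  rw [h1, norm_mul]
  have h2 : ‖Complex.exp (-(2 * Real.pi * Complex.I * (r * α)))‖ = 1 := by
    have : -(2 * Real.pi * Complex.I * (r * α)) = ((-(2 * Real.pi * (r * α)) : ℝ) : ℂ) * Complex.I := by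
      push_cast; ring
    rw [this, Complex.norm_exp_ofReal_mul_I]
  rw [h2, one_mul]
  refine (norm_sub_le _ _).trans ?_
  apply add_le_add (I.bound _ _)
  refine (norm_sum_le _ _).trans ?_
  calc ∑ l ∈ range r, ‖(mu l : ℂ) * Complex.exp (2 * Real.pi * Complex.I * (l * α))‖
      ≤ ∑ l ∈ range r, (1 : ℝ) := by
        apply sum_le_sum
        intro l _
        rw [norm_mul, Complex.norm_real, Real.norm_eq_abs]
        have : (2 * Real.pi * Complex.I * (l * α) : ℂ) = ((2 * Real.pi * (l * α) : ℝ) : ℂ) * Complex.I := by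
          push_cast; ring
        rw [this, Complex.norm_exp_ofReal_mul_I, mul_one]
        exact abs_mu_le l
    _ = r := by simp

/-- bound for the shifted exponential sums -/
noncomputable def Input.R (r m : ℕ) : ℝ := I.E (m + r) + r

lemma Input.R_nonneg (r m : ℕ) : 0 ≤ I.R r m := by
  unfold Input.R
  have := I.nonneg (m + r)
  positivity

lemma Input.R_lim (r : ℕ) : Tendsto (fun m : ℕ => I.R r m / m) atTop (𝓝 0) := by
  have h1 : Tendsto (fun m : ℕ => I.E (m + r) / ((m + r : ℕ) : ℝ)) atTop (𝓝 0) :=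
    I.lim.comp (tendsto_add_atTop_nat r)
  have h2 : Tendsto (fun m : ℕ => ((m + r : ℕ) : ℝ) / m) atTop (𝓝 1) := by
    have h3 : Tendsto (fun m : ℕ => (1 : ℝ) + r / m) atTop (𝓝 (1 + 0)) :=
      tendsto_const_nhds.add (tendsto_const_div_atTop_nhds_zero_nat (r : ℝ))
    rw [add_zero] at h3
    refine h3.congr' ?_
    filter_upwards [eventually_ge_atTop 1] with m hm
    have : (m : ℝ) ≠ 0 := by positivity
    push_cast
    field_simp
  have h3 : Tendsto (fun m : ℕ => (r : ℝ) / m) atTop (𝓝 0) :=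
    tendsto_const_div_atTop_nhds_zero_nat (r : ℝ)
  have h4 := (h1.mul h2).add h3
  rw [zero_mul, zero_add] at h4
  refine h4.congr' ?_
  filter_upwards [eventually_ge_atTop 1] with m hm
  have : (m : ℝ) ≠ 0 := by positivity
  have h5 : ((m + r : ℕ) : ℝ) ≠ 0 := by positivity
  unfold Input.R
  field_simp

lemma Input.R_summ (r : ℕ) : Summable (fun m : ℕ => I.R r m ^ 2 / (m : ℝ) ^ 3) := by
  have h1 : Summable (fun m : ℕ => I.E (m + r) ^ 2 / ((m + r : ℕ) : ℝ) ^ 3) :=
    I.summ.comp_injective (add_left_injective r)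
  have h2 : Summable (fun m : ℕ => (1 : ℝ) / (m : ℝ) ^ 3) :=
    Real.summable_one_div_nat_pow.mpr (by norm_num)
  have h3 : Summable (fun m : ℕ => 2 * (r + 1 : ℝ) ^ 3 * (I.E (m + r) ^ 2 / ((m + r : ℕ) : ℝ) ^ 3) +
      2 * (r : ℝ) ^ 2 * (1 / (m : ℝ) ^ 3)) := (h1.mul_left _).add (h2.mul_left _)
  refine Summable.of_nonneg_of_le (fun m => by positivity) (fun m => ?_) h3
  rcases Nat.eq_zero_or_pos m with rfl | hm
  · simp
    positivity
  have hm' : (1 : ℝ) ≤ m := by exact_mod_cast hm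
  have hr : (0 : ℝ) ≤ r := Nat.cast_nonneg r
  have hE := I.nonneg (m + r)
  have h4 : I.R r m ^ 2 ≤ 2 * I.E (m + r) ^ 2 + 2 * (r : ℝ) ^ 2 := by
    unfold Input.R
    nlinarith [sq_nonneg (I.E (m + r) - r)]
  have h5 : ((m + r : ℕ) : ℝ) ^ 3 ≤ ((r + 1 : ℝ) * m) ^ 3 := by
    apply pow_le_pow_left₀ (by positivity)
    push_cast
    nlinarith
  calc I.R r m ^ 2 / (m : ℝ) ^ 3 ≤ (2 * I.E (m + r) ^ 2 + 2 * (r : ℝ) ^ 2) / (m : ℝ) ^ 3 :=
        div_le_div_of_nonneg_right h4 (by positivity)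
    _ = 2 * (I.E (m + r) ^ 2 / (m : ℝ) ^ 3) + 2 * (r : ℝ) ^ 2 * (1 / (m : ℝ) ^ 3) := by ring
    _ ≤ 2 * ((r + 1 : ℝ) ^ 3 * (I.E (m + r) ^ 2 / ((m + r : ℕ) : ℝ) ^ 3)) +
        2 * (r : ℝ) ^ 2 * (1 / (m : ℝ) ^ 3) := by
        apply add_le_add_left
        apply mul_le_mul_of_nonneg_left _ (by norm_num)
        rw [mul_div_assoc', div_le_div_iff₀ (by positivity) (by positivity)]
        calc I.E (m + r) ^ 2 * ((m + r : ℕ) : ℝ) ^ 3 ≤ I.E (m + r) ^ 2 * ((r + 1 : ℝ) * m) ^ 3 :=
              mul_le_mul_of_nonneg_left h5 (by positivity)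
          _ = (r + 1 : ℝ) ^ 3 * I.E (m + r) ^ 2 * (m : ℝ) ^ 3 := by ring
    _ = _ := by ring

include I in
/-- The set of bad times is small, uniformly over all eventually constant sequences. -/
theorem univ_seq (r : ℕ) {B η δ : ℝ} (hB : 1 ≤ B) (hη : 0 < η) (hη1 : η ≤ 1) (hδ : 0 < δ) :
    ∃ M0 : ℕ, ∀ (N : ℕ) (G : ℕ → ℝ) (c : ℝ), |c| ≤ B → (∀ n, |G n| ≤ B) → (∀ n, N ≤ n → G n = 0) →
      ∀ (K : ℕ) (s : Finset ℕ), s ⊆ range K →
        (∀ k ∈ s, ∃ m, M0 ≤ m ∧ η * m < |∑ l ∈ range m, (G (k + l) + c) * mu (l + r)|) →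
        (s.card : ℝ) ≤ δ * N := by
  -- choose `M0`
  have htail : Tendsto (fun M : ℕ => ∑' m : ℕ, I.R r (m + M) ^ 2 / ((m + M : ℕ) : ℝ) ^ 3) atTop (𝓝 0) :=
    tendsto_sum_nat_add (fun m : ℕ => I.R r m ^ 2 / (m : ℝ) ^ 3)
  have hD : 0 < δ * η ^ 3 / (1024 * B ^ 3) := by positivity
  have e1 : ∀ᶠ M : ℕ in atTop, ∑' m : ℕ, I.R r (m + M) ^ 2 / ((m + M : ℕ) : ℝ) ^ 3 <
      δ * η ^ 3 / (1024 * B ^ 3) := htail.eventually_lt_const hD
  have e2 : ∀ᶠ m : ℕ in atTop, I.R r m / m < η / (2 * B) :=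
    (I.R_lim r).eventually_lt_const (by positivity)
  obtain ⟨M1, hM1⟩ := eventually_atTop.mp e2
  obtain ⟨M2, hM2⟩ := eventually_atTop.mp e1
  refine ⟨max (max M1 M2) 1, ?_⟩
  intro N G c hc hG hG0 K s hsK hs
  set M0 := max (max M1 M2) 1 with hM0
  have hM0M1 : M1 ≤ M0 := (le_max_left _ _).trans (le_max_left _ _)
  have hM0M2 : M2 ≤ M0 := (le_max_right _ _).trans (le_max_left _ _)
  have hM01 : 1 ≤ M0 := le_max_right _ _
  set b : ℕ → ℕ → ℝ := fun k m => ∑ l ∈ range m, G (k + l) * mu (l + r) with hb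
  have hcorr : ∀ m, ∑ k ∈ range K, (b k m) ^ 2 ≤ I.R r m ^ 2 * (B ^ 2 * N) := by
    intro m
    have h1 := corr_bound G (fun l => mu (l + r)) N m K hG0 (E := I.R r m) (fun α => I.shift m r α)
    refine h1.trans ?_
    apply mul_le_mul_of_nonneg_left _ (by positivity)
    calc ∑ n ∈ range N, (G n) ^ 2 ≤ ∑ n ∈ range N, B ^ 2 := by
          apply sum_le_sum
          intro n _
          rw [← sq_abs]
          exact pow_le_pow_left₀ (abs_nonneg _) (hG n) 2
      _ = B ^ 2 * N := by simp; ring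
  have hsummR : Summable (fun m : ℕ => I.R r (m + M0) ^ 2 / ((m + M0 : ℕ) : ℝ) ^ 3) :=
    (I.R_summ r).comp_injective (add_left_injective M0)
  have hsummk : ∀ k ∈ s, Summable (fun m : ℕ => b k (m + M0) ^ 2 / ((m + M0 : ℕ) : ℝ) ^ 3) := by
    intro k hk
    refine Summable.of_nonneg_of_le (fun m => by positivity) (fun m => ?_)
      (hsummR.mul_left (B ^ 2 * N))
    have h1 : b k (m + M0) ^ 2 ≤ ∑ k ∈ range K, (b k (m + M0)) ^ 2 :=
      single_le_sum (f := fun k => (b k (m + M0)) ^ 2) (fun i _ => sq_nonneg _) (hsK hk)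
    have h2 := h1.trans (hcorr (m + M0))
    rw [mul_div_assoc']
    apply div_le_div_of_nonneg_right _ (by positivity)
    linarith
  have hone : ∀ k ∈ s, η ^ 3 / (1024 * B) ≤ ∑' m : ℕ, b k (m + M0) ^ 2 / ((m + M0 : ℕ) : ℝ) ^ 3 := by
    intro k hk
    obtain ⟨m, hm, hlt⟩ := hs k hk
    have hm1 : (1 : ℝ) ≤ m := by exact_mod_cast hM01.trans hm
    have hm0 : (0 : ℝ) < m := by linarith
    -- `b k m` is large
    have h1 : ∑ l ∈ range m, (G (k + l) + c) * mu (l + r) = b k m + c * ∑ l ∈ range m, mu (l + r) := by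
      simp only [hb, mul_sum, ← sum_add_distrib]
      apply sum_congr rfl
      intro l _
      ring
    have h2 : |∑ l ∈ range m, mu (l + r)| ≤ I.R r m := by
      have h3 := I.shift m r 0
      simp only [Complex.ofReal_zero, mul_zero, Complex.exp_zero, mul_one] at h3
      rw [← Complex.ofReal_sum, Complex.norm_real, Real.norm_eq_abs] at h3
      exact h3
    have h3 : I.R r m ≤ η / (2 * B) * m := by
      have := hM1 m (hM0M1.trans hm)
      rw [div_lt_iff₀ hm0] at this
      exact this.le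
    have h4 : η / 2 * m ≤ |b k m| := by
      rw [h1] at hlt
      have h5 : |b k m + c * ∑ l ∈ range m, mu (l + r)| ≤ |b k m| + B * (η / (2 * B) * m) := by
        refine (abs_add_le _ _).trans ?_
        apply add_le_add_right
        rw [abs_mul]
        exact mul_le_mul hc (h2.trans h3) (abs_nonneg _) (by linarith)
      have h6 : B * (η / (2 * B) * m) = η / 2 * m := by
        field_simp
      rw [h6] at h5
      nlinarith
    -- stays large for `m' ∈ [m, m + t]`
    set t : ℕ := ⌊η * m / (8 * B)⌋₊ with ht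
    have ht1 : (t : ℝ) ≤ η * m / (8 * B) := Nat.floor_le (by positivity)
    have ht2 : η * m / (8 * B) < t + 1 := Nat.lt_floor_add_one _
    have h5 : ∀ j ≤ t, η / 4 * m ≤ |b k (m + j)| := by
      intro j hj
      have h6 : b k (m + j) = b k m + ∑ l ∈ range j, G (k + (m + l)) * mu (m + l + r) := by
        simp only [hb]
        rw [sum_range_add]
      have h7 : |∑ l ∈ range j, G (k + (m + l)) * mu (m + l + r)| ≤ B * j := by
        refine (abs_sum_le_sum_abs _ _).trans ?_
        calc ∑ l ∈ range j, |G (k + (m + l)) * mu (m + l + r)| ≤ ∑ l ∈ range j, B := by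
              apply sum_le_sum
              intro l _
              rw [abs_mul]
              calc |G (k + (m + l))| * |mu (m + l + r)| ≤ B * 1 :=
                    mul_le_mul (hG _) (abs_mu_le _) (abs_nonneg _) (by linarith)
                _ = B := mul_one B
          _ = B * j := by simp; ring
      have h8 : B * j ≤ η / 8 * m := by
        have : (j : ℝ) ≤ η * m / (8 * B) := le_trans (by exact_mod_cast hj) ht1
        calc B * j ≤ B * (η * m / (8 * B)) := mul_le_mul_of_nonneg_left this (by linarith)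
          _ = η / 8 * m := by field_simp
      have h9 : |b k m| ≤ |b k (m + j)| + B * j := by
        have : b k m = b k (m + j) - ∑ l ∈ range j, G (k + (m + l)) * mu (m + l + r) := by
          rw [h6]; ring
        rw [this]
        refine (abs_sub _ _).trans ?_
        linarith
      nlinarith
    -- sum over the window
    have h10 : ∑ j ∈ range (t + 1), b k (m + j) ^ 2 / ((m + j : ℕ) : ℝ) ^ 3 ≤
        ∑' m : ℕ, b k (m + M0) ^ 2 / ((m + M0 : ℕ) : ℝ) ^ 3 := by
      have h11 : ∑ j ∈ range (t + 1), b k (m + j) ^ 2 / ((m + j : ℕ) : ℝ) ^ 3 =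
          ∑ i ∈ (range (t + 1)).map (addLeftEmbedding (m - M0)),
            b k (i + M0) ^ 2 / ((i + M0 : ℕ) : ℝ) ^ 3 := by
        rw [sum_map]
        apply sum_congr rfl
        intro j _
        have : addLeftEmbedding (m - M0) j + M0 = m + j := by
          simp only [addLeftEmbedding_apply]
          omega
        rw [this]
      rw [h11]
      exact (hsummk k hk).sum_le_tsum _ (fun i _ => by positivity)
    refine le_trans ?_ h10
    have h12 : ∀ j ∈ range (t + 1), η ^ 2 / (128 * m) ≤ b k (m + j) ^ 2 / ((m + j : ℕ) : ℝ) ^ 3 := by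
      intro j hj
      rw [mem_range] at hj
      have h13 := h5 j (by omega)
      have hj2 : (j : ℝ) ≤ m := by
        have h14 : (j : ℝ) ≤ η * m / (8 * B) := le_trans (by exact_mod_cast (by omega : j ≤ t)) ht1
        have h15 : η * m / (8 * B) ≤ m := by
          rw [div_le_iff₀ (by positivity)]
          nlinarith
        linarith
      have h16 : ((m + j : ℕ) : ℝ) ≤ 2 * m := by push_cast; linarith
      have h17 : ((m + j : ℕ) : ℝ) ^ 3 ≤ (2 * m) ^ 3 := pow_le_pow_left₀ (by positivity) h16 3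
      have h18 : (η / 4 * m) ^ 2 ≤ b k (m + j) ^ 2 := by
        rw [← sq_abs (b k (m + j))]
        exact pow_le_pow_left₀ (by positivity) h13 2
      have hmj : (0 : ℝ) < ((m + j : ℕ) : ℝ) := by
        have : 0 < m + j := by
          have : 1 ≤ m := hM01.trans hm
          omega
        exact_mod_cast this
      calc η ^ 2 / (128 * m) = (η / 4 * m) ^ 2 / (2 * m) ^ 3 := by
            field_simp
            ring
        _ ≤ b k (m + j) ^ 2 / ((m + j : ℕ) : ℝ) ^ 3 :=
            div_le_div₀ (by positivity) h18 (by positivity) h17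
    calc η ^ 3 / (1024 * B) = (η * m / (8 * B)) * (η ^ 2 / (128 * m)) := by
          field_simp
          ring
      _ ≤ (t + 1) * (η ^ 2 / (128 * m)) := mul_le_mul_of_nonneg_right ht2.le (by positivity)
      _ = ∑ j ∈ range (t + 1), η ^ 2 / (128 * m) := by simp
      _ ≤ _ := sum_le_sum h12
  -- sum over `k`
  have hsum : (s.card : ℝ) * (η ^ 3 / (1024 * B)) ≤
      ∑' m : ℕ, (B ^ 2 * N) * (I.R r (m + M0) ^ 2 / ((m + M0 : ℕ) : ℝ) ^ 3) := by
    calc (s.card : ℝ) * (η ^ 3 / (1024 * B)) = ∑ k ∈ s, η ^ 3 / (1024 * B) := by simp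
      _ ≤ ∑ k ∈ s, ∑' m : ℕ, b k (m + M0) ^ 2 / ((m + M0 : ℕ) : ℝ) ^ 3 := sum_le_sum hone
      _ = ∑' m : ℕ, ∑ k ∈ s, b k (m + M0) ^ 2 / ((m + M0 : ℕ) : ℝ) ^ 3 :=
          (Summable.tsum_finsetSum hsummk).symm
      _ ≤ _ := by
          apply Summable.tsum_le_tsum _ (summable_sum hsummk) (hsummR.mul_left _)
          intro m
          rw [← sum_div, mul_div_assoc']
          apply div_le_div_of_nonneg_right _ (by positivity)
          have h1 : ∑ k ∈ s, b k (m + M0) ^ 2 ≤ ∑ k ∈ range K, (b k (m + M0)) ^ 2 :=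
            sum_le_sum_of_subset_of_nonneg hsK (fun i _ _ => sq_nonneg _)
          have h2 := h1.trans (hcorr (m + M0))
          linarith
  rw [tsum_mul_left] at hsum
  have h19 := hM2 M0 hM0M2
  have h20 : (s.card : ℝ) * (η ^ 3 / (1024 * B)) ≤ (B ^ 2 * N) * (δ * η ^ 3 / (1024 * B ^ 3)) :=
    hsum.trans (mul_le_mul_of_nonneg_left h19.le (by positivity))
  have h21 : (B ^ 2 * N) * (δ * η ^ 3 / (1024 * B ^ 3)) = (δ * N) * (η ^ 3 / (1024 * B)) := by
    field_simp
  rw [h21] at h20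
  exact le_of_mul_le_mul_right h20 (by positivity)

end Pool.Agent.H901R2.MD
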