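import Pool.Agent.H901R2.MD2

/-!
The universal compact set `K`, the subshift `Om K`, the greedy lemma and Moebius disjointness.
-/

set_option autoImplicit false

open Finset Filter Topology

namespace Pool.Agent.H901R2.MD

/-- one-sided sequences over two letters -/
abbrev Y := ℕ → Bool

/-- the shift -/
def sh (v : Y) : Y := fun n => v (n + 1)

lemma continuous_sh : Continuous sh := continuous_pi (fun n => continuous_apply (n + 1))

lemma sh_iter (k : ℕ) (v : Y) (n : ℕ) : (sh^[k] v) n = v (n + k) := by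
  induction k generalizing v with
  | zero => rfl
  | succ k ih =>
    rw [Function.iterate_succ_apply, ih]
    show v (n + k + 1) = v (n + (k + 1))
    rw [add_assoc]

lemma sh_iter_iter (l k : ℕ) (v : Y) : sh^[l] (sh^[k] v) = sh^[k + l] v := by
  rw [← Function.iterate_add_apply, add_comm]

/-- zero sequence -/
def zer : Y := fun _ => false

/-- prepend a letter -/
def cns (b : Bool) (w : Y) : Y
  | 0 => b
  | n + 1 => w n

lemma sh_cns (b : Bool) (w : Y) : sh (cns b w) = w := rfl

lemma sh_iter_succ_cns (b : Bool) (w : Y) (n : ℕ) : sh^[n + 1] (cns b w) = sh^[n] w := by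
  rw [Function.iterate_succ_apply, sh_cns]

/-- dense sequence of continuous functions -/
noncomputable def fs (i : ℕ) : C(Y, ℝ) := TopologicalSpace.denseSeq C(Y, ℝ) i

/-- test sum -/
noncomputable def AA (f : C(Y, ℝ)) (r m : ℕ) (v : Y) : ℝ :=
  ∑ l ∈ range m, f (sh^[l] v) * mu (l + r)

lemma continuous_AA (f : C(Y, ℝ)) (r m : ℕ) : Continuous (AA f r m) := by
  unfold AA
  apply continuous_finsetSum
  intro l _
  exact (f.continuous.comp (continuous_sh.iterate l)).mul continuous_const

/-- the universal compact set -/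
def KK (m0 : ℕ → ℕ → ℕ → ℕ) : Set Y :=
  {v | ∀ i r s m, m0 i r s ≤ m → |AA (fs i) r m v| ≤ (1 / 2) ^ s * m}

lemma isClosed_KK (m0 : ℕ → ℕ → ℕ → ℕ) : IsClosed (KK m0) := by
  have h : KK m0 = ⋂ i, ⋂ r, ⋂ s, ⋂ m, ⋂ (_ : m0 i r s ≤ m),
      {v | |AA (fs i) r m v| ≤ (1 / 2) ^ s * m} := by
    ext v
    simp [KK]
  rw [h]
  refine isClosed_iInter (fun i => isClosed_iInter (fun r => isClosed_iInter (fun s =>
    isClosed_iInter (fun m => isClosed_iInter (fun _ => ?_)))))
  exact isClosed_le (continuous_AA _ _ _).abs continuous_const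

/-- the subshift -/
def Om (K : Set Y) : Set Y := {v | ∀ n, v n = true → sh^[n + 1] v ∈ K}

lemma isClosed_Om {K : Set Y} (hK : IsClosed K) : IsClosed (Om K) := by
  have h : Om K = ⋂ n, ({v : Y | v n = false} ∪ (sh^[n + 1]) ⁻¹' K) := by
    ext v
    simp only [Om, Set.mem_ofPred_eq, Set.mem_iInter, Set.mem_union, Set.mem_preimage]
    apply forall_congr'
    intro n
    cases v n <;> simp
  rw [h]
  apply isClosed_iInter
  intro n
  apply IsClosed.union
  · exact isClosed_eq (continuous_apply n) continuous_const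
  · exact hK.preimage (continuous_sh.iterate _)

lemma sh_mem_Om {K : Set Y} {v : Y} (hv : v ∈ Om K) : sh v ∈ Om K := by
  intro n hn
  have h1 : v (n + 1) = true := hn
  have h2 := hv (n + 1) h1
  rwa [Function.iterate_succ_apply] at h2

lemma sh_iter_mem_Om {K : Set Y} {v : Y} (hv : v ∈ Om K) (k : ℕ) : sh^[k] v ∈ Om K := by
  induction k with
  | zero => exact hv
  | succ k ih =>
    rw [Function.iterate_succ_apply']
    exact sh_mem_Om ih

/-- prepend `j` zeros -/
def pad (j : ℕ) (v : Y) : Y := fun n => if n < j then false else v (n - j)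

lemma pad_mem_Om {K : Set Y} {v : Y} (hv : v ∈ Om K) (j : ℕ) : pad j v ∈ Om K := by
  intro n hn
  unfold pad at hn
  by_cases h : n < j
  · rw [if_pos h] at hn
    exact absurd hn (by simp)
  · rw [if_neg h] at hn
    have h1 := hv _ hn
    have h2 : sh^[n + 1] (pad j v) = sh^[n - j + 1] v := by
      funext i
      rw [sh_iter, sh_iter]
      unfold pad
      rw [if_neg (by omega)]
      congr 1
      omega
    rw [h2]
    exact h1

/-- greedy right-to-left construction -/
lemma greedy (K : Set Y) (N : ℕ) : ∀ x : Y, ∃ v : Y, (∀ n, N ≤ n → v n = false) ∧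
    (∀ n, n < N → (v n = true ↔ (x n = true ∧ sh^[n + 1] v ∈ K))) := by
  classical
  induction N with
  | zero =>
    intro x
    exact ⟨zer, fun n _ => rfl, fun n hn => absurd hn (by omega)⟩
  | succ N ih =>
    intro x
    obtain ⟨w, hw0, hw⟩ := ih (sh x)
    refine ⟨cns (x 0 && decide (w ∈ K)) w, ?_, ?_⟩
    · intro n hn
      obtain ⟨n, rfl⟩ : ∃ n', n = n' + 1 := ⟨n - 1, by omega⟩
      exact hw0 n (by omega)
    · intro n hn
      rcases Nat.eq_zero_or_pos n with rfl | hpos
      · show (x 0 && decide (w ∈ K)) = true ↔ _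
        rw [Bool.and_eq_true, decide_eq_true_iff]
        rfl
      · obtain ⟨n, rfl⟩ : ∃ n', n = n' + 1 := ⟨n - 1, by omega⟩
        rw [sh_iter_succ_cns]
        exact hw n (by omega)

lemma greedy_mem {K : Set Y} {N : ℕ} {x v : Y} (h1 : ∀ n, N ≤ n → v n = false)
    (h2 : ∀ n, n < N → (v n = true ↔ (x n = true ∧ sh^[n + 1] v ∈ K))) : v ∈ Om K := by
  intro n hn
  by_cases h : n < N
  · exact ((h2 n h).mp hn).2
  · rw [h1 n (not_lt.mp h)] at hn
    exact absurd hn (by simp)

/-- existence of the universal thresholds -/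
theorem exists_K (I : Input) {δ : ℝ} (hδ : 0 < δ) : ∃ m0 : ℕ → ℕ → ℕ → ℕ, ∀ (N : ℕ) (v : Y),
    (∀ n, N ≤ n → v n = false) → ∀ s : Finset ℕ, (∀ k ∈ s, sh^[k] v ∉ KK m0) →
      (s.card : ℝ) ≤ δ * N := by
  classical
  set w : ℕ → ℕ → ℕ → ℝ := fun i r s => (1 / 2 : ℝ) ^ (Nat.pair i (Nat.pair r s) + 1) with hw
  have hex : ∀ i r s : ℕ, ∃ M0 : ℕ, ∀ (N : ℕ) (G : ℕ → ℝ) (c : ℝ), |c| ≤ 2 * ‖fs i‖ + 1 →
      (∀ n, |G n| ≤ 2 * ‖fs i‖ + 1) → (∀ n, N ≤ n → G n = 0) →
      ∀ (K : ℕ) (t : Finset ℕ), t ⊆ range K →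
        (∀ k ∈ t, ∃ m, M0 ≤ m ∧ (1 / 2 : ℝ) ^ s * m < |∑ l ∈ range m, (G (k + l) + c) * mu (l + r)|) →
        (t.card : ℝ) ≤ (δ * w i r s) * N := by
    intro i r s
    exact univ_seq I r (by linarith [norm_nonneg (fs i)]) (by positivity)
      (pow_le_one₀ (by norm_num) (by norm_num)) (by positivity)
  choose m0 hm0 using hex
  refine ⟨m0, ?_⟩
  intro N v hv t ht
  -- each bad time has a bad triple
  have hbad : ∀ k, k ∈ t → ∃ p : ℕ × ℕ × ℕ, ∃ m, m0 p.1 p.2.1 p.2.2 ≤ m ∧
      (1 / 2 : ℝ) ^ p.2.2 * m < |AA (fs p.1) p.2.1 m (sh^[k] v)| := by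
    intro k hk
    have h := ht k hk
    unfold KK at h
    simp only [Set.mem_ofPred_eq, not_forall, not_le] at h
    obtain ⟨i, r, s, m, hm, hlt⟩ := h
    exact ⟨(i, r, s), m, hm, hlt⟩
  set P : ℕ → ℕ × ℕ × ℕ := fun k => if h : k ∈ t then (hbad k h).choose else (0, 0, 0) with hP
  have hPs : ∀ k ∈ t, ∃ m, m0 (P k).1 (P k).2.1 (P k).2.2 ≤ m ∧
      (1 / 2 : ℝ) ^ (P k).2.2 * m < |AA (fs (P k).1) (P k).2.1 m (sh^[k] v)| := by
    intro k hk
    have : P k = (hbad k hk).choose := by simp only [hP]; rw [dif_pos hk]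
    rw [this]
    exact (hbad k hk).choose_spec
  have hfib : ∀ p ∈ t.image P, (((t.filter (fun k => P k = p)).card : ℕ) : ℝ) ≤
      (δ * w p.1 p.2.1 p.2.2) * N := by
    intro p _
    obtain ⟨B, hB⟩ : ∃ B, t ⊆ range B := ⟨t.sup id + 1, fun k hk => by
      rw [mem_range]
      have := Finset.le_sup (f := id) hk
      simp only [id] at this
      omega⟩
    refine hm0 p.1 p.2.1 p.2.2 N (fun n => fs p.1 (sh^[n] v) - fs p.1 zer) (fs p.1 zer) ?_ ?_ ?_ B
      (t.filter (fun k => P k = p)) ((filter_subset _ _).trans hB) ?_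
    · have := (fs p.1).norm_coe_le_norm zer
      rw [Real.norm_eq_abs] at this
      linarith [norm_nonneg (fs p.1)]
    · intro n
      have h1 := (fs p.1).norm_coe_le_norm zer
      have h2 := (fs p.1).norm_coe_le_norm (sh^[n] v)
      rw [Real.norm_eq_abs] at h1 h2
      refine (abs_sub _ _).trans ?_
      linarith
    · intro n hn
      have : sh^[n] v = zer := by
        funext i
        rw [sh_iter]
        exact hv _ (by omega)
      simp only [this, sub_self]
    · intro k hk
      rw [mem_filter] at hk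
      obtain ⟨m, hm, hlt⟩ := hPs k hk.1
      rw [hk.2] at hm hlt
      refine ⟨m, hm, ?_⟩
      refine hlt.trans_le (le_of_eq ?_)
      unfold AA
      congr 1
      apply sum_congr rfl
      intro l _
      rw [sh_iter_iter]
      ring
  have hcard : t.card = ∑ p ∈ t.image P, (t.filter (fun k => P k = p)).card :=
    card_eq_sum_card_image P t
  have hinj : Function.Injective (fun p : ℕ × ℕ × ℕ => Nat.pair p.1 (Nat.pair p.2.1 p.2.2)) := by
    rintro ⟨a, b, c⟩ ⟨a', b', c'⟩ h
    simp only [Nat.pair_eq_pair] at h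
    obtain ⟨h1, h2, h3⟩ := h
    subst h1; subst h2; subst h3
    rfl
  have hwsum : ∑ p ∈ t.image P, w p.1 p.2.1 p.2.2 ≤ 1 := by
    have h1 : ∑ p ∈ t.image P, w p.1 p.2.1 p.2.2 =
        ∑ n ∈ (t.image P).image (fun p : ℕ × ℕ × ℕ => Nat.pair p.1 (Nat.pair p.2.1 p.2.2)),
          (1 / 2 : ℝ) ^ (n + 1) := by
      rw [sum_image (fun a _ b _ h => hinj h)]
    rw [h1]
    have hs : HasSum (fun n : ℕ => (1 / 2 : ℝ) ^ (n + 1)) 1 := by
      have h2 := hasSum_geometric_two.mul_left (1 / 2 : ℝ)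
      have h3 : (1 / 2 : ℝ) * 2 = 1 := by norm_num
      rw [h3] at h2
      refine h2.congr_fun (fun n => ?_)
      rw [pow_succ]
      ring
    exact sum_le_hasSum _ (fun n _ => by positivity) hs
  rw [hcard]
  push_cast
  calc ∑ p ∈ t.image P, ((t.filter (fun k => P k = p)).card : ℝ)
      ≤ ∑ p ∈ t.image P, (δ * w p.1 p.2.1 p.2.2) * N := sum_le_sum hfib
    _ = (∑ p ∈ t.image P, w p.1 p.2.1 p.2.2) * (δ * N) := by
        rw [sum_mul]
        apply sum_congr rfl
        intro p _
        ring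
    _ ≤ 1 * (δ * N) := mul_le_mul_of_nonneg_right hwsum (by positivity)
    _ = δ * N := one_mul _

/-- greedy words agree with the given word except on few places -/
lemma greedy_count {K : Set Y} {N : ℕ} {x v : Y} {δ : ℝ}
    (h2 : ∀ n, n < N → (v n = true ↔ (x n = true ∧ sh^[n + 1] v ∈ K)))
    (hK : ∀ s : Finset ℕ, (∀ k ∈ s, sh^[k] v ∉ K) → (s.card : ℝ) ≤ δ * N) :
    (((range N).filter (fun n => x n = true)).card : ℝ) ≤
      ((range N).filter (fun n => v n = true)).card + δ * N := by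
  classical
  set B := (range N).filter (fun n => sh^[n + 1] v ∉ K) with hB
  have h3 : (range N).filter (fun n => x n = true) ⊆
      (range N).filter (fun n => v n = true) ∪ B := by
    intro n hn
    rw [mem_filter, mem_range] at hn
    rw [mem_union, hB, mem_filter, mem_filter, mem_range]
    by_cases h : sh^[n + 1] v ∈ K
    · left
      exact ⟨hn.1, (h2 n hn.1).mpr ⟨hn.2, h⟩⟩
    · right
      exact ⟨hn.1, h⟩
  have h4 := card_le_card h3
  have h5 := card_union_le ((range N).filter (fun n => v n = true)) B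
  have h6 : (B.card : ℝ) ≤ δ * N := by
    have h7 := hK (B.map (addRightEmbedding 1)) (by
      intro k hk
      rw [Finset.mem_map] at hk
      obtain ⟨n, hn, rfl⟩ := hk
      rw [hB, mem_filter] at hn
      exact hn.2)
    rwa [card_map] at h7
  have h8 : (((range N).filter (fun n => x n = true)).card : ℝ) ≤
      ((range N).filter (fun n => v n = true)).card + B.card := by
    exact_mod_cast h4.trans h5
  linarith

/-- Moebius averages -/
noncomputable def avg (g : Y → ℝ) (v : Y) (N : ℕ) : ℝ := (∑ n ∈ range N, mu n * g (sh^[n] v)) / N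

lemma md_fs (I : Input) {m0 : ℕ → ℕ → ℕ → ℕ} {v : Y} (hv : v ∈ Om (KK m0)) (i : ℕ) :
    Tendsto (avg (fs i) v) atTop (𝓝 0) := by
  by_cases hj : ∃ j, v j = true
  · obtain ⟨j, hj⟩ := hj
    have hK := hv j hj
    rw [Metric.tendsto_atTop]
    intro ε hε
    obtain ⟨s, hs⟩ := exists_pow_lt_of_lt_one (half_pos hε) (by norm_num : (1 / 2 : ℝ) < 1)
    obtain ⟨N1, hN1⟩ := exists_nat_gt (2 * ((j + 1) * ‖fs i‖) / ε)
    refine ⟨max (m0 i (j + 1) s + (j + 1)) (N1 + 1), ?_⟩
    intro N hN
    have hNa : m0 i (j + 1) s + (j + 1) ≤ N := (le_max_left _ _).trans hN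
    have hNb : N1 + 1 ≤ N := (le_max_right _ _).trans hN
    have hN0 : (0 : ℝ) < N := by
      have : 0 < N := by omega
      exact_mod_cast this
    obtain ⟨m, rfl⟩ : ∃ m, N = (j + 1) + m := ⟨N - (j + 1), by omega⟩
    have h1 := hK i (j + 1) s m (by omega)
    have h2 : ∑ n ∈ range ((j + 1) + m), mu n * fs i (sh^[n] v) =
        ∑ n ∈ range (j + 1), mu n * fs i (sh^[n] v) + AA (fs i) (j + 1) m (sh^[j + 1] v) := by
      rw [sum_range_add]
      congr 1
      unfold AA
      apply sum_congr rfl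
      intro l _
      rw [sh_iter_iter, add_comm l (j + 1)]
      ring
    have h3 : |∑ n ∈ range (j + 1), mu n * fs i (sh^[n] v)| ≤ (j + 1) * ‖fs i‖ := by
      refine (abs_sum_le_sum_abs _ _).trans ?_
      calc ∑ n ∈ range (j + 1), |mu n * fs i (sh^[n] v)| ≤ ∑ n ∈ range (j + 1), ‖fs i‖ := by
            apply sum_le_sum
            intro n _
            rw [abs_mul]
            have h4 := (fs i).norm_coe_le_norm (sh^[n] v)
            rw [Real.norm_eq_abs] at h4
            calc |mu n| * |fs i (sh^[n] v)| ≤ 1 * ‖fs i‖ :=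
                  mul_le_mul (abs_mu_le n) h4 (abs_nonneg _) zero_le_one
              _ = ‖fs i‖ := one_mul _
        _ = (j + 1) * ‖fs i‖ := by simp
    rw [Real.dist_eq, sub_zero]
    unfold avg
    rw [h2, abs_div, abs_of_pos hN0, div_lt_iff₀ hN0]
    have h5 : |∑ n ∈ range (j + 1), mu n * fs i (sh^[n] v) + AA (fs i) (j + 1) m (sh^[j + 1] v)| ≤
        (j + 1) * ‖fs i‖ + (1 / 2) ^ s * m := (abs_add_le _ _).trans (add_le_add h3 h1)
    have h6 : (1 / 2 : ℝ) ^ s * m ≤ ε / 2 * ((j + 1 + m : ℕ) : ℝ) := by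
      apply mul_le_mul hs.le _ (Nat.cast_nonneg _) (by positivity)
      exact_mod_cast Nat.le_add_left m (j + 1)
    have h7 : ((j : ℝ) + 1) * ‖fs i‖ < ε / 2 * ((j + 1 + m : ℕ) : ℝ) := by
      have h8 : (N1 : ℝ) < ((j + 1 + m : ℕ) : ℝ) := by exact_mod_cast (by omega : N1 < j + 1 + m)
      have h9 := hN1.trans h8
      rw [div_lt_iff₀ hε] at h9
      linarith
    linarith
  · push Not at hj
    have hz : v = zer := by
      funext n
      exact Bool.eq_false_iff.mpr (hj n)
    have hzs : ∀ n, sh^[n] v = zer := by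
      intro n
      rw [hz]
      funext i
      rw [sh_iter]
      rfl
    have h1 : ∀ N, |avg (fs i) v N| ≤ ‖fs i‖ * (I.E N / N) := by
      intro N
      unfold avg
      have h2 : ∑ n ∈ range N, mu n * fs i (sh^[n] v) = fs i zer * ∑ n ∈ range N, mu n := by
        rw [mul_sum]
        apply sum_congr rfl
        intro n _
        rw [hzs]
        ring
      have h3 : |∑ n ∈ range N, mu n| ≤ I.E N := by
        have h4 := I.bound N 0
        simp only [Complex.ofReal_zero, mul_zero, Complex.exp_zero, mul_one] at h4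
        rw [← Complex.ofReal_sum, Complex.norm_real, Real.norm_eq_abs] at h4
        exact h4
      have h4 := (fs i).norm_coe_le_norm zer
      rw [Real.norm_eq_abs] at h4
      rw [h2, abs_div, abs_mul, Nat.abs_cast, mul_div_assoc']
      apply div_le_div_of_nonneg_right _ (Nat.cast_nonneg _)
      exact mul_le_mul h4 h3 (abs_nonneg _) (norm_nonneg _)
    have h5 : Tendsto (fun N : ℕ => ‖fs i‖ * (I.E N / N)) atTop (𝓝 0) := by
      have := I.lim.const_mul ‖fs i‖
      rwa [mul_zero] at this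
    exact squeeze_zero_norm (fun N => by rw [Real.norm_eq_abs]; exact h1 N) h5

theorem md_real (I : Input) {m0 : ℕ → ℕ → ℕ → ℕ} {v : Y} (hv : v ∈ Om (KK m0)) (g : C(Y, ℝ)) :
    Tendsto (avg g v) atTop (𝓝 0) := by
  rw [Metric.tendsto_atTop]
  intro ε hε
  obtain ⟨i, hi⟩ : ∃ i, dist g (fs i) < ε / 2 := by
    have h := (TopologicalSpace.denseRange_denseSeq C(Y, ℝ)).exists_dist_lt g (half_pos hε)
    obtain ⟨i, hi⟩ := h
    exact ⟨i, hi⟩
  obtain ⟨N0, hN0⟩ := (Metric.tendsto_atTop.mp (md_fs I hv i)) (ε / 2) (half_pos hε)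
  refine ⟨max N0 1, fun N hN => ?_⟩
  have h1 := hN0 N ((le_max_left _ _).trans hN)
  rw [Real.dist_eq, sub_zero] at h1 ⊢
  have hNpos : (0 : ℝ) < N := by
    have : 0 < N := lt_of_lt_of_le Nat.one_pos ((le_max_right _ _).trans hN)
    exact_mod_cast this
  have h2 : |avg g v N - avg (fs i) v N| ≤ dist g (fs i) := by
    unfold avg
    rw [← sub_div, ← sum_sub_distrib, abs_div, abs_of_pos hNpos, div_le_iff₀ hNpos]
    refine (abs_sum_le_sum_abs _ _).trans ?_
    calc ∑ n ∈ range N, |mu n * g (sh^[n] v) - mu n * fs i (sh^[n] v)|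
        ≤ ∑ n ∈ range N, dist g (fs i) := by
          apply sum_le_sum
          intro n _
          rw [← mul_sub, abs_mul]
          have h3 : |g (sh^[n] v) - fs i (sh^[n] v)| ≤ dist g (fs i) := by
            rw [← Real.dist_eq]
            exact ContinuousMap.dist_apply_le_dist _
          calc |mu n| * |g (sh^[n] v) - fs i (sh^[n] v)| ≤ 1 * dist g (fs i) :=
                mul_le_mul (abs_mu_le n) h3 (abs_nonneg _) zero_le_one
            _ = dist g (fs i) := one_mul _
      _ = dist g (fs i) * N := by simp; ring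
  have h3 : |avg g v N| ≤ |avg g v N - avg (fs i) v N| + |avg (fs i) v N| := by
    have : avg g v N = (avg g v N - avg (fs i) v N) + avg (fs i) v N := by ring
    calc |avg g v N| = |(avg g v N - avg (fs i) v N) + avg (fs i) v N| := by rw [← this]
      _ ≤ _ := abs_add_le _ _
  linarith

end Pool.Agent.H901R2.MD
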