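import Pool.Agent.H901R2.MD3

/-!
A point whose omega-limit set consists of Moebius disjoint points: comparison of the
omega-limit set and the orbit closure.
-/

set_option autoImplicit false

open Finset Filter Topology MeasureTheory

namespace Pool.Agent.H901R2.MD

/-- tail of the orbit -/
def Orb (z : Y) (n : ℕ) : Set Y := {y | ∃ m, n ≤ m ∧ y = sh^[m] z}

/-- omega-limit set -/
def Xw (z : Y) : Set Y := ⋂ n, closure (Orb z n)

/-- orbit closure -/
def Xp (z : Y) : Set Y := closure (Orb z 0)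

lemma Orb_anti (z : Y) {m n : ℕ} (h : m ≤ n) : Orb z n ⊆ Orb z m := by
  rintro y ⟨k, hk, rfl⟩
  exact ⟨k, h.trans hk, rfl⟩

lemma Xw_closed (z : Y) : IsClosed (Xw z) := isClosed_iInter (fun _ => isClosed_closure)

lemma Xp_closed (z : Y) : IsClosed (Xp z) := isClosed_closure

lemma Xw_sub_Xp (z : Y) : Xw z ⊆ Xp z := fun _ hy => Set.mem_iInter.mp hy 0

lemma sh_image_Orb (z : Y) (n : ℕ) : sh '' (Orb z n) ⊆ Orb z n := by
  rintro _ ⟨y, ⟨m, hm, rfl⟩, rfl⟩
  exact ⟨m + 1, by omega, by rw [Function.iterate_succ_apply']⟩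

lemma sh_closure_Orb (z : Y) (n : ℕ) {y : Y} (hy : y ∈ closure (Orb z n)) :
    sh y ∈ closure (Orb z n) := by
  have h1 : sh y ∈ sh '' closure (Orb z n) := ⟨y, hy, rfl⟩
  have h2 := image_closure_subset_closure_image continuous_sh h1
  exact closure_mono (sh_image_Orb z n) h2

lemma sh_Xw (z : Y) {y : Y} (hy : y ∈ Xw z) : sh y ∈ Xw z := by
  unfold Xw at hy ⊢
  rw [Set.mem_iInter] at hy ⊢
  intro n
  exact sh_closure_Orb z n (hy n)

lemma sh_Xp (z : Y) {y : Y} (hy : y ∈ Xp z) : sh y ∈ Xp z := sh_closure_Orb z 0 hy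

/-- points outside the omega-limit set are orbit points -/
lemma mem_orbit_of_not_Xw (z : Y) {y : Y} (hy : y ∈ Xp z) (hy2 : y ∉ Xw z) :
    ∃ n, y = sh^[n] z := by
  unfold Xw at hy2
  rw [Set.mem_iInter] at hy2
  push Not at hy2
  obtain ⟨n, hn⟩ := hy2
  have h1 : Orb z 0 ⊆ ((fun m => sh^[m] z) '' (Set.Iio n)) ∪ Orb z n := by
    rintro _ ⟨m, _, rfl⟩
    by_cases h : m < n
    · left; exact ⟨m, h, rfl⟩
    · right; exact ⟨m, not_lt.mp h, rfl⟩
  have h2 := closure_mono h1 hy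
  rw [closure_union] at h2
  rcases h2 with h2 | h2
  · have hfin : ((fun m => sh^[m] z) '' (Set.Iio n)).Finite := (Set.finite_Iio n).image _
    rw [hfin.isClosed.closure_eq] at h2
    obtain ⟨m, _, hm⟩ := h2
    exact ⟨m, hm.symm⟩
  · exact absurd h2 hn

/-- recurrent orbit points are in the omega-limit set -/
lemma mem_Xw_of_periodic (z : Y) {n k : ℕ} (hk : k ≠ 0) (h : sh^[k] (sh^[n] z) = sh^[n] z) :
    sh^[n] z ∈ Xw z := by
  unfold Xw
  rw [Set.mem_iInter]
  intro m
  apply subset_closure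
  have h1 : ∀ j : ℕ, sh^[k * j] (sh^[n] z) = sh^[n] z := by
    intro j
    induction j with
    | zero => rfl
    | succ j ih => rw [mul_add, mul_one, Function.iterate_add_apply, h, ih]
  refine ⟨n + k * m, ?_, ?_⟩
  · have : m ≤ k * m := Nat.le_mul_of_pos_left m (Nat.pos_of_ne_zero hk)
    omega
  · rw [← sh_iter_iter, h1]

/-- the two systems -/
abbrev TX (z : Y) := {y : Y // y ∈ Xw z}
abbrev TX' (z : Y) := {y : Y // y ∈ Xp z}

def Tw (z : Y) (y : TX z) : TX z := ⟨sh y.1, sh_Xw z y.2⟩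
def Tp (z : Y) (y : TX' z) : TX' z := ⟨sh y.1, sh_Xp z y.2⟩

lemma continuous_Tw (z : Y) : Continuous (Tw z) :=
  (continuous_sh.comp continuous_subtype_val).subtype_mk _

lemma continuous_Tp (z : Y) : Continuous (Tp z) :=
  (continuous_sh.comp continuous_subtype_val).subtype_mk _

lemma Tw_iter (z : Y) (n : ℕ) (y : TX z) : ((Tw z)^[n] y).1 = sh^[n] y.1 := by
  induction n with
  | zero => rfl
  | succ n ih => rw [Function.iterate_succ_apply', Function.iterate_succ_apply', ← ih]; rfl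

lemma Tp_iter (z : Y) (n : ℕ) (y : TX' z) : ((Tp z)^[n] y).1 = sh^[n] y.1 := by
  induction n with
  | zero => rfl
  | succ n ih => rw [Function.iterate_succ_apply', Function.iterate_succ_apply', ← ih]; rfl

def inc (z : Y) (y : TX z) : TX' z := ⟨y.1, Xw_sub_Xp z y.2⟩

lemma continuous_inc (z : Y) : Continuous (inc z) := continuous_subtype_val.subtype_mk _

open Classical in
noncomputable def ret (z : Y) (x0 : TX z) (p : TX' z) : TX z :=
  ⟨if p.1 ∈ Xw z then p.1 else x0.1, by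
    split_ifs with h
    · exact h
    · exact x0.2⟩

lemma ret_of_mem (z : Y) (x0 : TX z) {p : TX' z} (h : p.1 ∈ Xw z) : (ret z x0 p).1 = p.1 := by
  unfold ret
  simp only
  rw [if_pos h]

lemma ret_inc (z : Y) (x0 : TX z) (y : TX z) : ret z x0 (inc z y) = y :=
  Subtype.ext (ret_of_mem z x0 (p := inc z y) y.2)

lemma inc_ret (z : Y) (x0 : TX z) {p : TX' z} (h : p.1 ∈ Xw z) : inc z (ret z x0 p) = p :=
  Subtype.ext (ret_of_mem z x0 h)

lemma measurable_inc (z : Y) : Measurable (inc z) := measurable_subtype_coe.subtype_mk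

lemma measurableSet_Xw (z : Y) : MeasurableSet (Xw z) := (Xw_closed z).measurableSet

lemma measurable_ret (z : Y) (x0 : TX z) : Measurable (ret z x0) := by
  classical
  unfold ret
  apply Measurable.subtype_mk
  apply Measurable.ite
  · exact measurable_subtype_coe (measurableSet_Xw z)
  · exact measurable_subtype_coe
  · exact measurable_const

/-- invariant measures of the orbit closure live on the omega-limit set -/
lemma ae_mem_Xw (z : Y) (ν : Measure (TX' z)) [IsProbabilityMeasure ν]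
    (hν : MeasurePreserving (Tp z) ν ν) : ∀ᵐ p ∂ν, p.1 ∈ Xw z := by
  have hpt : ∀ n : ℕ, ν {p : TX' z | p.1 = sh^[n] z ∧ p.1 ∉ Xw z} = 0 := by
    intro n
    by_contra h0
    set S : Set (TX' z) := {p : TX' z | p.1 = sh^[n] z ∧ p.1 ∉ Xw z} with hS
    have hSm : MeasurableSet S := by
      have h1 : MeasurableSet {p : TX' z | p.1 = sh^[n] z} :=
        measurable_subtype_coe (measurableSet_singleton _)
      have h2 : MeasurableSet {p : TX' z | p.1 ∈ Xw z} := measurable_subtype_coe (measurableSet_Xw z)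
      exact h1.inter h2.compl
    have hcons := hν.conservative
    obtain ⟨p, hp, m, hm, hpm⟩ := hcons.exists_mem_iterate_mem hSm.nullMeasurableSet h0
    have h3 : sh^[m] p.1 = p.1 := by
      rw [← Tp_iter, hpm.1, hp.1]
    rw [hp.1] at h3
    exact hp.2 (hp.1 ▸ mem_Xw_of_periodic z hm h3)
  have hcov : {p : TX' z | ¬ p.1 ∈ Xw z} ⊆ ⋃ n : ℕ, {p : TX' z | p.1 = sh^[n] z ∧ p.1 ∉ Xw z} := by
    intro p hp
    obtain ⟨n, hn⟩ := mem_orbit_of_not_Xw z p.2 hp
    exact Set.mem_iUnion.mpr ⟨n, hn, hp⟩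
  rw [ae_iff]
  exact measure_mono_null hcov (measure_iUnion_null hpt)

lemma iso1 (z : Y) (μ : Measure (TX z)) (hμ : IsProbabilityMeasure μ)
    (hT : MeasurePreserving (Tw z) μ μ) :
    ∃ ν : Measure (TX' z), IsProbabilityMeasure ν ∧ MeasurePreserving (Tp z) ν ν ∧
        ∃ φ : TX z → TX' z, ∃ ψ : TX' z → TX z, MeasurePreserving φ μ ν ∧ MeasurePreserving ψ ν μ ∧
          (∀ᵐ x ∂μ, φ (Tw z x) = Tp z (φ x)) ∧ (∀ᵐ x ∂μ, ψ (φ x) = x) ∧
          (∀ᵐ y ∂ν, φ (ψ y) = y) := by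
  obtain ⟨x0⟩ : Nonempty (TX z) := by
    by_contra h
    rw [not_nonempty_iff] at h
    have h1 : μ Set.univ = 1 := measure_univ
    rw [Set.univ_eq_empty_iff.mpr h, measure_empty] at h1
    exact zero_ne_one h1
  have hφ := measurable_inc z
  have hψ := measurable_ret z x0
  have hTm : Measurable (Tw z) := hT.measurable
  have hTpm : Measurable (Tp z) := (continuous_Tp z).measurable
  refine ⟨μ.map (inc z), Measure.isProbabilityMeasure_map hφ.aemeasurable, ⟨hTpm, ?_⟩, inc z,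
    ret z x0, ⟨hφ, rfl⟩, ⟨hψ, ?_⟩, ?_, ?_, ?_⟩
  · rw [Measure.map_map hTpm hφ]
    have h1 : Tp z ∘ inc z = inc z ∘ Tw z := rfl
    rw [h1, ← Measure.map_map hφ hTm, hT.map_eq]
  · rw [Measure.map_map hψ hφ]
    have h1 : ret z x0 ∘ inc z = id := funext (fun y => ret_inc z x0 y)
    rw [h1, Measure.map_id]
  · exact Eventually.of_forall (fun x => rfl)
  · exact Eventually.of_forall (fun x => ret_inc z x0 x)
  · have h1 : MeasurableSet {y : TX' z | y.1 ∈ Xw z} := measurable_subtype_coe (measurableSet_Xw z)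
    have h2 : ∀ᵐ y ∂(μ.map (inc z)), y.1 ∈ Xw z := by
      rw [ae_map_iff hφ.aemeasurable h1]
      exact Eventually.of_forall (fun x => x.2)
    filter_upwards [h2] with y hy
    exact inc_ret z x0 hy

lemma iso2 (z : Y) (ν : Measure (TX' z)) (hν : IsProbabilityMeasure ν)
    (hT : MeasurePreserving (Tp z) ν ν) :
    ∃ μ : Measure (TX z), IsProbabilityMeasure μ ∧ MeasurePreserving (Tw z) μ μ ∧
        ∃ φ : TX z → TX' z, ∃ ψ : TX' z → TX z, MeasurePreserving φ μ ν ∧ MeasurePreserving ψ ν μ ∧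
          (∀ᵐ x ∂μ, φ (Tw z x) = Tp z (φ x)) ∧ (∀ᵐ x ∂μ, ψ (φ x) = x) ∧
          (∀ᵐ y ∂ν, φ (ψ y) = y) := by
  have hae := ae_mem_Xw z ν hT
  obtain ⟨p0, hp0⟩ := hae.exists
  set x0 : TX z := ⟨p0.1, hp0⟩ with hx0
  have hφ := measurable_inc z
  have hψ := measurable_ret z x0
  have hTm : Measurable (Tw z) := (continuous_Tw z).measurable
  have hTpm : Measurable (Tp z) := hT.measurable
  refine ⟨ν.map (ret z x0), Measure.isProbabilityMeasure_map hψ.aemeasurable, ⟨hTm, ?_⟩, inc z,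
    ret z x0, ⟨hφ, ?_⟩, ⟨hψ, rfl⟩, ?_, ?_, ?_⟩
  · rw [Measure.map_map hTm hψ]
    have h1 : Tw z ∘ ret z x0 =ᵐ[ν] ret z x0 ∘ Tp z := by
      filter_upwards [hae] with p hp
      apply Subtype.ext
      show sh (ret z x0 p).1 = (ret z x0 (Tp z p)).1
      rw [ret_of_mem z x0 hp, ret_of_mem z x0 (p := Tp z p) (sh_Xw z hp)]
      rfl
    rw [Measure.map_congr h1, ← Measure.map_map hψ hTpm, hT.map_eq]
  · rw [Measure.map_map hφ hψ]
    have h1 : inc z ∘ ret z x0 =ᵐ[ν] id := by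
      filter_upwards [hae] with p hp
      exact inc_ret z x0 hp
    rw [Measure.map_congr h1, Measure.map_id]
  · exact Eventually.of_forall (fun x => rfl)
  · exact Eventually.of_forall (fun x => ret_inc z x0 x)
  · filter_upwards [hae] with p hp
    exact inc_ret z x0 hp

/-- Moebius disjointness for complex continuous functions on the omega-limit set -/
lemma md_complex (z : Y) (hMD : ∀ y ∈ Xw z, ∀ g : C(Y, ℝ), Tendsto (avg g y) atTop (𝓝 0))
    (x : TX z) (f : TX z → ℂ) (hf : Continuous f) :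
    Tendsto (fun N : ℕ => (N : ℂ)⁻¹ * ∑ n ∈ Finset.range N,
        ((ArithmeticFunction.moebius n : ℤ) : ℂ) * f ((Tw z)^[n] x)) atTop (𝓝 0) := by
  have hext : ∀ g : TX z → ℝ, Continuous g → Tendsto (fun N : ℕ =>
      (∑ n ∈ range N, mu n * g ((Tw z)^[n] x)) / N) atTop (𝓝 0) := by
    intro g hg
    obtain ⟨G, hG⟩ := ContinuousMap.exists_restrict_eq (Xw_closed z) (⟨g, hg⟩ : C(Xw z, ℝ))
    refine (hMD x.1 x.2 G).congr (fun N => ?_)
    unfold avg
    congr 1
    apply sum_congr rfl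
    intro n _
    congr 1
    have h1 := DFunLike.congr_fun hG ((Tw z)^[n] x)
    rw [ContinuousMap.restrict_apply] at h1
    rw [← Tw_iter]
    exact h1
  have hre := hext (fun y => (f y).re) (Complex.continuous_re.comp hf)
  have him := hext (fun y => (f y).im) (Complex.continuous_im.comp hf)
  have h1 : Tendsto (fun N : ℕ => (((∑ n ∈ range N, mu n * (f ((Tw z)^[n] x)).re) / N : ℝ) : ℂ) +
      (((∑ n ∈ range N, mu n * (f ((Tw z)^[n] x)).im) / N : ℝ) : ℂ) * Complex.I) atTop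
      (𝓝 (((0 : ℝ) : ℂ) + ((0 : ℝ) : ℂ) * Complex.I)) :=
    ((Complex.continuous_ofReal.tendsto 0).comp hre).add
      (((Complex.continuous_ofReal.tendsto 0).comp him).mul_const _)
  simp only [Complex.ofReal_zero, zero_mul, add_zero] at h1
  refine h1.congr (fun N => ?_)
  push_cast
  rw [div_mul_eq_mul_div, ← add_div, sum_mul, ← sum_add_distrib, div_eq_inv_mul]
  congr 1
  apply sum_congr rfl
  intro n _
  unfold mu
  rw [← Complex.re_add_im (f ((Tw z)^[n] x))]
  simp only [Complex.add_re, Complex.ofReal_re, Complex.mul_re, Complex.I_re, mul_zero,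
    Complex.ofReal_im, Complex.I_im, mul_one, sub_self, add_zero, Complex.add_im, Complex.mul_im,
    zero_add]
  push_cast
  ring

/-- first letter -/
def fl (v : Y) : ℝ := if v 0 = true then 1 else 0

lemma continuous_fl : Continuous fl := by
  have h : fl = (fun b : Bool => if b = true then (1 : ℝ) else 0) ∘ (fun v : Y => v 0) := rfl
  rw [h]
  exact continuous_of_discreteTopology.comp (continuous_apply 0)

theorem transfer (z : Y) (hMD : ∀ y ∈ Xw z, ∀ g : C(Y, ℝ), Tendsto (avg g y) atTop (𝓝 0))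
    (hz : ¬ Tendsto (avg fl z) atTop (𝓝 0)) :
    ¬ (∀ (X : Type) [MetricSpace X] [CompactSpace X] [MeasurableSpace X] [BorelSpace X]
    (X' : Type) [MetricSpace X'] [CompactSpace X'] [MeasurableSpace X'] [BorelSpace X']
    (T : X → X) (T' : X' → X'), Continuous T → Continuous T' →
    (∀ μ : Measure X, IsProbabilityMeasure μ → MeasurePreserving T μ μ →
      ∃ ν : Measure X', IsProbabilityMeasure ν ∧ MeasurePreserving T' ν ν ∧
        ∃ φ : X → X', ∃ ψ : X' → X, MeasurePreserving φ μ ν ∧ MeasurePreserving ψ ν μ ∧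
          (∀ᵐ x ∂μ, φ (T x) = T' (φ x)) ∧ (∀ᵐ x ∂μ, ψ (φ x) = x) ∧
          (∀ᵐ y ∂ν, φ (ψ y) = y)) →
    (∀ ν : Measure X', IsProbabilityMeasure ν → MeasurePreserving T' ν ν →
      ∃ μ : Measure X, IsProbabilityMeasure μ ∧ MeasurePreserving T μ μ ∧
        ∃ φ : X → X', ∃ ψ : X' → X, MeasurePreserving φ μ ν ∧ MeasurePreserving ψ ν μ ∧
          (∀ᵐ x ∂μ, φ (T x) = T' (φ x)) ∧ (∀ᵐ x ∂μ, ψ (φ x) = x) ∧
          (∀ᵐ y ∂ν, φ (ψ y) = y)) →
    (∀ (x : X) (f : X → ℂ), Continuous f →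
      Tendsto (fun N : ℕ => (N : ℂ)⁻¹ * ∑ n ∈ Finset.range N,
        ((ArithmeticFunction.moebius n : ℤ) : ℂ) * f (T^[n] x)) atTop (𝓝 0)) →
    (∀ (x : X') (f : X' → ℂ), Continuous f →
      Tendsto (fun N : ℕ => (N : ℂ)⁻¹ * ∑ n ∈ Finset.range N,
        ((ArithmeticFunction.moebius n : ℤ) : ℂ) * f (T'^[n] x)) atTop (𝓝 0))) := by
  intro H
  let m1 : MetricSpace (TX z) := TopologicalSpace.metrizableSpaceMetric (TX z)
  let m2 : MetricSpace (TX' z) := TopologicalSpace.metrizableSpaceMetric (TX' z)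
  have c1 : CompactSpace (TX z) := isCompact_iff_compactSpace.mp (Xw_closed z).isCompact
  have c2 : CompactSpace (TX' z) := isCompact_iff_compactSpace.mp (Xp_closed z).isCompact
  have h := H (TX z) (TX' z) (Tw z) (Tp z) (continuous_Tw z) (continuous_Tp z)
    (fun μ hμ hT => iso1 z μ hμ hT) (fun ν hν hT => iso2 z ν hν hT)
    (fun x f hf => md_complex z hMD x f hf)
    ⟨z, subset_closure ⟨0, le_rfl, rfl⟩⟩ (fun p => ((fl p.1 : ℝ) : ℂ))
    (Complex.continuous_ofReal.comp (continuous_fl.comp continuous_subtype_val))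
  apply hz
  have h1 := (Complex.continuous_re.tendsto 0).comp h
  simp only [Complex.zero_re] at h1
  refine h1.congr (fun N => ?_)
  simp only [Function.comp_apply]
  have h2 : ((N : ℂ)⁻¹ * ∑ n ∈ range N, ((ArithmeticFunction.moebius n : ℤ) : ℂ) *
      ((fl ((Tp z)^[n] ⟨z, subset_closure ⟨0, le_rfl, rfl⟩⟩).1 : ℝ) : ℂ)) =
      ((avg fl z N : ℝ) : ℂ) := by
    unfold avg mu
    push_cast
    rw [div_eq_inv_mul]
    congr 1
    apply sum_congr rfl
    intro n _
    rw [Tp_iter]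
  rw [h2, Complex.ofReal_re]

end Pool.Agent.H901R2.MD
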