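import Pool.Agent.H901R2.MD4

/-!
The block construction of the point `z`.
-/

set_option autoImplicit false

open Finset Filter Topology MeasureTheory

namespace Pool.Agent.H901R2.MD

lemma sum_inv_sq (n : ℕ) : ∑ d ∈ Ico 2 (n + 3), (1 : ℝ) / (d : ℝ) ^ 2 ≤ 3 / 4 - 1 / ((n : ℝ) + 2) := by
  induction n with
  | zero =>
    rw [show Ico 2 (0 + 3) = {2} by rfl, sum_singleton]
    norm_num
  | succ n ih =>
    rw [sum_Ico_succ_top (by omega)]
    have h1 : (1 : ℝ) / ((n + 3 : ℕ) : ℝ) ^ 2 ≤ 1 / ((n : ℝ) + 2) - 1 / ((n : ℝ) + 3) := by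
      have hn : (0 : ℝ) ≤ n := Nat.cast_nonneg n
      rw [div_sub_div _ _ (by positivity) (by positivity), div_le_div_iff₀ (by positivity) (by positivity)]
      push_cast
      nlinarith
    have h2 : ((n + 1 : ℕ) : ℝ) + 2 = (n : ℝ) + 3 := by push_cast; ring
    rw [h2]
    have h3 : n + 1 + 2 = n + 3 := by omega
    linarith

lemma mu_ne_zero_iff {n : ℕ} : mu n ≠ 0 ↔ Squarefree n := by
  unfold mu
  rw [Int.cast_ne_zero]
  exact ArithmeticFunction.moebius_ne_zero_iff_squarefree

lemma sqf_count (N : ℕ) : (N : ℝ) / 4 - 1 ≤ ((range N).filter (fun n => mu n ≠ 0)).card := by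
  classical
  rcases Nat.lt_or_ge N 3 with hN | hN
  · have h1 : (N : ℝ) ≤ 2 := by exact_mod_cast (by omega : N ≤ 2)
    have h2 : (0 : ℝ) ≤ ((range N).filter (fun n => mu n ≠ 0)).card := Nat.cast_nonneg _
    linarith
  obtain ⟨n0, rfl⟩ : ∃ n0, N = n0 + 3 := ⟨N - 3, by omega⟩
  set N := n0 + 3 with hNdef
  have hcov : (range N).filter (fun n => ¬ mu n ≠ 0) ⊆
      {0} ∪ (Ico 2 N).biUnion (fun d => (Ioc 0 (N - 1)).filter (fun n => d ^ 2 ∣ n)) := by
    intro n hn
    rw [mem_filter, mem_range] at hn
    rw [mem_union, mem_singleton, mem_biUnion]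
    rcases Nat.eq_zero_or_pos n with h0 | hpos
    · exact Or.inl h0
    right
    rw [mu_ne_zero_iff] at hn
    unfold Squarefree at hn
    have hn2 := hn.2
    push Not at hn2
    obtain ⟨d, hd, hdu⟩ := hn2
    have hd0 : d ≠ 0 := by
      rintro rfl
      rw [zero_mul, zero_dvd_iff] at hd
      omega
    have hd1 : d ≠ 1 := fun h => hdu (by rw [h]; exact isUnit_one)
    have hdn : d * d ≤ n := Nat.le_of_dvd hpos hd
    have hd2 : d ≤ d * d := Nat.le_mul_self d
    refine ⟨d, ?_, ?_⟩
    · rw [mem_Ico]; omega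
    · rw [mem_filter, mem_Ioc]
      refine ⟨⟨hpos, by omega⟩, ?_⟩
      rw [sq]; exact hd
  have h1 := card_le_card hcov
  have h2 : ({0} ∪ (Ico 2 N).biUnion
      (fun d => (Ioc 0 (N - 1)).filter (fun n => d ^ 2 ∣ n))).card ≤
      1 + ∑ d ∈ Ico 2 N, (N - 1) / d ^ 2 := by
    refine (card_union_le _ _).trans ?_
    apply Nat.add_le_add (by simp)
    refine card_biUnion_le.trans ?_
    apply sum_le_sum
    intro d _
    rw [Nat.Ioc_filter_dvd_card_eq_div]
  have h3 : ((∑ d ∈ Ico 2 N, (N - 1) / d ^ 2 : ℕ) : ℝ) ≤ N * (3 / 4) := by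
    push_cast
    calc ∑ d ∈ Ico 2 N, (((N - 1) / d ^ 2 : ℕ) : ℝ) ≤ ∑ d ∈ Ico 2 N, (N : ℝ) * (1 / (d : ℝ) ^ 2) := by
          apply sum_le_sum
          intro d _
          refine Nat.cast_div_le.trans ?_
          rw [mul_one_div]
          push_cast
          apply div_le_div_of_nonneg_right _ (by positivity)
          exact_mod_cast Nat.sub_le N 1
      _ = (N : ℝ) * ∑ d ∈ Ico 2 N, 1 / (d : ℝ) ^ 2 := by rw [mul_sum]
      _ ≤ N * (3 / 4) := by
          apply mul_le_mul_of_nonneg_left _ (Nat.cast_nonneg _)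
          refine (sum_inv_sq n0).trans ?_
          have : (0 : ℝ) ≤ 1 / ((n0 : ℝ) + 2) := by positivity
          linarith
  have h4 := card_filter_add_card_filter_not (s := range N) (fun n => mu n ≠ 0)
  rw [card_range] at h4
  have h5 : (((range N).filter (fun n => ¬ mu n ≠ 0)).card : ℝ) ≤ 1 + N * (3 / 4) := by
    have h6 : (((range N).filter (fun n => ¬ mu n ≠ 0)).card : ℝ) ≤
        ((1 + ∑ d ∈ Ico 2 N, (N - 1) / d ^ 2 : ℕ) : ℝ) := by exact_mod_cast h1.trans h2
    refine h6.trans ?_
    push_cast at h3 ⊢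
    linarith
  have h7 : (((range N).filter (fun n => mu n ≠ 0)).card : ℝ) +
      ((range N).filter (fun n => ¬ mu n ≠ 0)).card = N := by exact_mod_cast h4
  linarith

lemma sign_count (N : ℕ) : ∃ e : ℝ, (e = 1 ∨ e = -1) ∧
    (N : ℝ) / 8 - 1 ≤ ((range N).filter (fun n => mu n = e)).card := by
  classical
  have h1 := sqf_count N
  have h2 : (range N).filter (fun n => mu n ≠ 0) ⊆
      (range N).filter (fun n => mu n = 1) ∪ (range N).filter (fun n => mu n = -1) := by
    intro n hn
    rw [mem_filter] at hn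
    rw [mem_union, mem_filter, mem_filter]
    have h3 : ArithmeticFunction.moebius n ≠ 0 := by
      intro h
      apply hn.2
      unfold mu
      rw [h]; simp
    rcases ArithmeticFunction.moebius_ne_zero_iff_eq_or.mp h3 with h | h
    · left; refine ⟨hn.1, ?_⟩; unfold mu; rw [h]; simp
    · right; refine ⟨hn.1, ?_⟩; unfold mu; rw [h]; simp
  have h3 := (card_le_card h2).trans (card_union_le _ _)
  have h4 : (((range N).filter (fun n => mu n ≠ 0)).card : ℝ) ≤
      ((range N).filter (fun n => mu n = 1)).card + ((range N).filter (fun n => mu n = -1)).card := by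
    exact_mod_cast h3
  by_cases h5 : (N : ℝ) / 8 - 1 ≤ ((range N).filter (fun n => mu n = 1)).card
  · exact ⟨1, Or.inl rfl, h5⟩
  · refine ⟨-1, Or.inr rfl, ?_⟩
    rw [not_le] at h5
    linarith

/-- block parameters -/
def ak (k : ℕ) : ℕ := 256 ^ k + k

lemma k_le_pow (k : ℕ) : k ≤ 256 ^ k := (Nat.lt_pow_self (by norm_num)).le

lemma ak_le (k : ℕ) : ak k ≤ 2 * 256 ^ k := by
  unfold ak
  have := k_le_pow k
  omega

lemma ak_lt (k : ℕ) : ak k < 256 ^ (k + 1) := by
  have h1 := ak_le k
  have h2 : 0 < 256 ^ k := by positivity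
  rw [pow_succ]
  omega

theorem exists_z (I : Input) : ∃ (m0 : ℕ → ℕ → ℕ → ℕ) (z : Y), Xw z ⊆ Om (KK m0) ∧
    ¬ Tendsto (avg fl z) atTop (𝓝 0) := by
  classical
  obtain ⟨m0, hm0⟩ := exists_K I (δ := 1 / 16) (by norm_num)
  set K := KK m0 with hK
  choose e he hcount using sign_count
  -- words
  have hword : ∀ k : ℕ, ∃ v : Y, (∀ n, 256 ^ (k + 1) - ak k ≤ n → v n = false) ∧
      (∀ n, n < 256 ^ (k + 1) - ak k →
        (v n = true ↔ (decide (mu (ak k + n) = e (256 ^ (k + 1))) = true ∧ sh^[n + 1] v ∈ K))) :=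
    fun k => greedy K (256 ^ (k + 1) - ak k) (fun n => decide (mu (ak k + n) = e (256 ^ (k + 1))))
  choose v hv0 hv1 using hword
  have hvO : ∀ k, v k ∈ Om K := fun k => greedy_mem (hv0 k)
    (x := fun n => decide (mu (ak k + n) = e (256 ^ (k + 1)))) (hv1 k)
  set z : Y := fun n => if ak (Nat.log 256 n) ≤ n then v (Nat.log 256 n) (n - ak (Nat.log 256 n))
    else false with hz
  have hlog : ∀ k n, 256 ^ k ≤ n → n < 256 ^ (k + 1) → Nat.log 256 n = k := by
    intro k n h1 h2
    have hn : n ≠ 0 := by
      have : 0 < 256 ^ k := by positivity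
      omega
    rw [Nat.log_eq_iff (Or.inr ⟨by norm_num, hn⟩)]
    exact ⟨h1, h2⟩
  have hzk : ∀ k n, 256 ^ k ≤ n → n < 256 ^ (k + 1) →
      z n = if ak k ≤ n then v k (n - ak k) else false := by
    intro k n h1 h2
    simp only [hz]
    rw [hlog k n h1 h2]
  refine ⟨m0, z, ?_, ?_⟩
  · -- omega-limit set
    intro u hu
    have hex : ∀ M : ℕ, ∃ w ∈ Om K, ∀ i, i < M → w i = u i := by
      intro M
      have h1 := Set.mem_iInter.mp hu (256 ^ M)
      have hopen : IsOpen {y : Y | ∀ i ∈ range M, y i = u i} := by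
        have : {y : Y | ∀ i ∈ range M, y i = u i} = ⋂ i ∈ range M, {y : Y | y i = u i} := by
          ext y; simp
        rw [this]
        apply isOpen_biInter_finset
        intro i _
        have : {y : Y | y i = u i} = (fun y : Y => y i) ⁻¹' {u i} := rfl
        rw [this]
        exact (isOpen_discrete _).preimage (continuous_apply i)
      obtain ⟨y, hy1, m, hm, rfl⟩ := mem_closure_iff.mp h1 _ hopen (fun i _ => rfl)
      have hmpos : 0 < m := lt_of_lt_of_le (by positivity) hm
      obtain ⟨k, hk1, hk2⟩ : ∃ k, 256 ^ k ≤ m ∧ m < 256 ^ (k + 1) :=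
        ⟨Nat.log 256 m, Nat.pow_log_le_self 256 hmpos.ne', Nat.lt_pow_succ_log_self (by norm_num) m⟩
      have hkM : M ≤ k := by
        by_contra hcon
        have h2 : 256 ^ (k + 1) ≤ 256 ^ M := Nat.pow_le_pow_right (by norm_num) (by omega)
        omega
      have hak := ak_lt k
      have hval : ∀ i, i < M → u i = if ak k ≤ m + i ∧ m + i < 256 ^ (k + 1) then
          v k (m + i - ak k) else false := by
        intro i hi
        have h3 := hy1 i (mem_range.mpr hi)
        rw [sh_iter] at h3
        rw [← h3, add_comm i m]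
        by_cases h4 : m + i < 256 ^ (k + 1)
        · rw [hzk k (m + i) (by omega) h4]
          by_cases h5 : ak k ≤ m + i
          · rw [if_pos h5, if_pos ⟨h5, h4⟩]
          · rw [if_neg h5, if_neg (fun h => h5 h.1)]
        · rw [if_neg (fun h => h4 h.2)]
          have h6 : m + i < 256 ^ (k + 2) := by
            have h7 : 256 ^ (k + 2) = 256 * 256 ^ (k + 1) := by rw [pow_succ]; ring
            have h8 := k_le_pow (k + 1)
            omega
          rw [hzk (k + 1) (m + i) (by omega) h6, if_neg]
          unfold ak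
          omega
      by_cases hc : ak k ≤ m
      · refine ⟨sh^[m - ak k] (v k), sh_iter_mem_Om (hvO k) _, ?_⟩
        intro i hi
        rw [sh_iter, hval i hi]
        have h9 : i + (m - ak k) = m + i - ak k := by omega
        rw [h9]
        by_cases h4 : m + i < 256 ^ (k + 1)
        · rw [if_pos ⟨by omega, h4⟩]
        · rw [if_neg (fun h => h4 h.2)]
          exact hv0 k _ (by omega)
      · refine ⟨pad (ak k - m) (v k), pad_mem_Om (hvO k) _, ?_⟩
        intro i hi
        rw [hval i hi]
        unfold pad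
        by_cases h5 : ak k ≤ m + i
        · rw [if_neg (by omega)]
          have h9 : i - (ak k - m) = m + i - ak k := by omega
          rw [h9]
          by_cases h4 : m + i < 256 ^ (k + 1)
          · rw [if_pos ⟨h5, h4⟩]
          · rw [if_neg (fun h => h4 h.2)]
            exact hv0 k _ (by omega)
        · rw [if_pos (by omega), if_neg (fun h => h5 h.1)]
    choose w hwO hwu using hex
    have hcl : IsClosed (Om K) := isClosed_Om (isClosed_KK m0)
    refine hcl.mem_of_tendsto (f := w) (b := atTop) ?_ (Eventually.of_forall hwO)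
    rw [tendsto_pi_nhds]
    intro i
    apply tendsto_const_nhds.congr'
    filter_upwards [eventually_gt_atTop i] with M hM
    exact (hwu M i hM).symm
  · -- not Moebius disjoint
    intro hT
    rw [Metric.tendsto_atTop] at hT
    obtain ⟨N0, hN0⟩ := hT (1 / 32) (by norm_num)
    set k := N0 with hk
    set N := 256 ^ (k + 1) with hN
    have hNN0 : N0 ≤ N := (k_le_pow k).trans (Nat.pow_le_pow_right (by norm_num) (by omega))
    have h1 := hN0 N hNN0
    rw [Real.dist_eq, sub_zero] at h1
    have hNpos : 0 < N := by rw [hN]; positivity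
    have hNr : (0 : ℝ) < N := by exact_mod_cast hNpos
    have hN256 : (256 : ℝ) ≤ N := by
      have : 256 ^ 1 ≤ 256 ^ (k + 1) := Nat.pow_le_pow_right (by norm_num) (by omega)
      rw [pow_one] at this
      exact_mod_cast this
    have hak := ak_lt k
    set L := N - ak k with hL
    have hNL : N = ak k + L := by omega
    have hflz : ∀ n, fl (sh^[n] z) = if z n = true then 1 else 0 := by
      intro n
      unfold fl
      rw [sh_iter, zero_add]
    have hzi : ∀ i, i < L → z (ak k + i) = v k i := by
      intro i hi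
      have h2 : ak k + i < 256 ^ (k + 1) := by
        rw [← hN]
        omega
      rw [hzk k (ak k + i) (by unfold ak; omega) h2, if_pos (by omega), Nat.add_sub_cancel_left]
    have hsum : ∑ n ∈ range N, mu n * fl (sh^[n] z) =
        ∑ n ∈ range (ak k), mu n * fl (sh^[n] z) +
          e N * ((range L).filter (fun n => v k n = true)).card := by
      have h0 : ∑ n ∈ range N, mu n * fl (sh^[n] z) =
          ∑ n ∈ range (ak k + L), mu n * fl (sh^[n] z) := by rw [← hNL]
      rw [h0, sum_range_add]
      congr 1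
      rw [card_filter]
      push_cast
      rw [mul_sum]
      apply sum_congr rfl
      intro i hi
      rw [mem_range] at hi
      rw [hflz, hzi i hi]
      by_cases h2 : v k i = true
      · simp only [if_pos h2]
        have h3 := (hv1 k i (by omega)).mp h2
        have h4 := of_decide_eq_true h3.1
        rw [h4]
      · simp only [if_neg h2]
        ring
    have habs1 : |∑ n ∈ range (ak k), mu n * fl (sh^[n] z)| ≤ ak k := by
      refine (abs_sum_le_sum_abs _ _).trans ?_
      calc ∑ n ∈ range (ak k), |mu n * fl (sh^[n] z)| ≤ ∑ n ∈ range (ak k), (1 : ℝ) := by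
            apply sum_le_sum
            intro n _
            rw [abs_mul]
            have h2 : |fl (sh^[n] z)| ≤ 1 := by
              unfold fl
              split_ifs <;> simp
            calc |mu n| * |fl (sh^[n] z)| ≤ 1 * 1 :=
                  mul_le_mul (abs_mu_le n) h2 (abs_nonneg _) zero_le_one
              _ = 1 := one_mul _
        _ = ak k := by simp
    -- count
    have hgc := greedy_count (K := K) (N := L) (v := v k) (δ := 1 / 16)
      (x := fun n => decide (mu (ak k + n) = e N)) (hv1 k) (fun s hs => hm0 L (v k) (hv0 k) s hs)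
    have hxc : ((range N).filter (fun n => mu n = e N)).card ≤ ak k +
        ((range L).filter (fun n => decide (mu (ak k + n) = e N) = true)).card := by
      have h2 : (range N).filter (fun n => mu n = e N) ⊆ range (ak k) ∪
          ((range L).filter (fun n => decide (mu (ak k + n) = e N) = true)).map
            (addLeftEmbedding (ak k)) := by
        intro n hn
        rw [mem_filter, mem_range] at hn
        rw [mem_union, mem_range]
        by_cases h3 : n < ak k
        · exact Or.inl h3
        · right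
          rw [Finset.mem_map]
          refine ⟨n - ak k, ?_, ?_⟩
          · rw [mem_filter, mem_range]
            refine ⟨by omega, ?_⟩
            have h4 : ak k + (n - ak k) = n := by omega
            rw [h4]
            exact decide_eq_true hn.2
          · simp only [addLeftEmbedding_apply]
            omega
      refine (card_le_card h2).trans ((card_union_le _ _).trans ?_)
      rw [card_map, card_range]
    have hc := hcount N
    have hxc' : (((range N).filter (fun n => mu n = e N)).card : ℝ) ≤ ak k +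
        ((range L).filter (fun n => decide (mu (ak k + n) = e N) = true)).card := by
      exact_mod_cast hxc
    have hakN : (ak k : ℝ) ≤ N / 128 := by
      have h2 := ak_le k
      have h3 : 128 * ak k ≤ N := by
        rw [hN, pow_succ]
        omega
      rw [le_div_iff₀ (by norm_num)]
      have : ((128 * ak k : ℕ) : ℝ) ≤ N := by exact_mod_cast h3
      push_cast at this
      linarith
    have hLN : (L : ℝ) ≤ N := by exact_mod_cast Nat.sub_le _ _
    set V : ℝ := (((range L).filter (fun n => v k n = true)).card : ℝ) with hV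
    have hVlow : (N : ℝ) * (3 / 64) - 1 + ak k ≤ V := by
      have h5 : (N : ℝ) / 8 - 1 ≤ ak k + (V + 1 / 16 * L) := by
        refine hc.trans (hxc'.trans ?_)
        linarith
      linarith
    have hV0 : 0 ≤ V := Nat.cast_nonneg _
    have heabs : |e N * V| = V := by
      rw [abs_mul, abs_of_nonneg hV0]
      rcases he N with h | h <;> rw [h] <;> simp
    have h6 : V - ak k ≤ |∑ n ∈ range N, mu n * fl (sh^[n] z)| := by
      rw [hsum]
      have h7 : |e N * V| ≤ |∑ n ∈ range (ak k), mu n * fl (sh^[n] z) + e N * V| +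
          |∑ n ∈ range (ak k), mu n * fl (sh^[n] z)| := by
        have h8 : e N * V = (∑ n ∈ range (ak k), mu n * fl (sh^[n] z) + e N * V) -
            ∑ n ∈ range (ak k), mu n * fl (sh^[n] z) := by ring
        calc |e N * V| = |(∑ n ∈ range (ak k), mu n * fl (sh^[n] z) + e N * V) -
            ∑ n ∈ range (ak k), mu n * fl (sh^[n] z)| := by rw [← h8]
          _ ≤ _ := abs_sub _ _
      rw [heabs] at h7
      linarith
    unfold avg at h1
    rw [abs_div, abs_of_pos hNr, div_lt_iff₀ hNr] at h1
    linarith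

theorem main (I : Input) :
    ¬ (∀ (X : Type) [MetricSpace X] [CompactSpace X] [MeasurableSpace X] [BorelSpace X]
    (X' : Type) [MetricSpace X'] [CompactSpace X'] [MeasurableSpace X'] [BorelSpace X']
    (T : X → X) (T' : X' → X'), Continuous T → Continuous T' →
    (∀ μ : Measure X, IsProbabilityMeasure μ → MeasurePreserving T μ μ →
      ∃ ν : Measure X', IsProbabilityMeasure ν ∧ MeasurePreserving T' ν ν ∧
        ∃ φ : X → X', ∃ ψ : X' → X, MeasurePreserving φ μ ν ∧ MeasurePreserving ψ ν μ ∧
          (∀ᵐ x ∂μ, φ (T x) = T' (φ x)) ∧ (∀ᵐ x ∂μ, ψ (φ x) = x) ∧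
          (∀ᵐ y ∂ν, φ (ψ y) = y)) →
    (∀ ν : Measure X', IsProbabilityMeasure ν → MeasurePreserving T' ν ν →
      ∃ μ : Measure X, IsProbabilityMeasure μ ∧ MeasurePreserving T μ μ ∧
        ∃ φ : X → X', ∃ ψ : X' → X, MeasurePreserving φ μ ν ∧ MeasurePreserving ψ ν μ ∧
          (∀ᵐ x ∂μ, φ (T x) = T' (φ x)) ∧ (∀ᵐ x ∂μ, ψ (φ x) = x) ∧
          (∀ᵐ y ∂ν, φ (ψ y) = y)) →
    (∀ (x : X) (f : X → ℂ), Continuous f →
      Tendsto (fun N : ℕ => (N : ℂ)⁻¹ * ∑ n ∈ Finset.range N,
        ((ArithmeticFunction.moebius n : ℤ) : ℂ) * f (T^[n] x)) atTop (𝓝 0)) →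
    (∀ (x : X') (f : X' → ℂ), Continuous f →
      Tendsto (fun N : ℕ => (N : ℂ)⁻¹ * ∑ n ∈ Finset.range N,
        ((ArithmeticFunction.moebius n : ℤ) : ℂ) * f (T'^[n] x)) atTop (𝓝 0))) := by
  obtain ⟨m0, z, h1, h2⟩ := exists_z I
  exact transfer z (fun y hy g => md_real I (h1 hy) g) h2

end Pool.Agent.H901R2.MD
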