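import Pool.Agent.H901R2.MD5

/-!
From a Davenport type estimate to the analytic input.
-/

set_option autoImplicit false

open Finset Filter Topology MeasureTheory

namespace Pool.Agent.H901R2.MD

/-- the Davenport type estimate -/
def Dav : Prop := ∃ C : ℝ, 0 < C ∧ ∀ N : ℕ, 16 ≤ N → ∀ α : ℝ,
  ‖∑ n ∈ range N, ((ArithmeticFunction.moebius n : ℤ) : ℂ) *
    Complex.exp (2 * Real.pi * Complex.I * n * α)‖ ≤ C * N / (Real.log N) ^ (3 / 4 : ℝ)

lemma summ_log : Summable (fun m : ℕ => 1 / ((m : ℝ) * (1 + Real.log m) ^ (3 / 2 : ℝ))) := by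
  have hlog : ∀ m : ℕ, 0 ≤ Real.log m := fun m => Real.log_natCast_nonneg m
  rw [← summable_condensed_iff_of_nonneg]
  · have h1 : ∀ k : ℕ, (2 : ℝ) ^ k * (1 / (((2 ^ k : ℕ) : ℝ) *
        (1 + Real.log ((2 ^ k : ℕ) : ℝ)) ^ (3 / 2 : ℝ))) = 1 / (1 + k * Real.log 2) ^ (3 / 2 : ℝ) := by
      intro k
      push_cast
      rw [Real.log_pow]
      have : (2 : ℝ) ^ k ≠ 0 := by positivity
      field_simp
    simp only [h1]
    have h2 : Summable (fun k : ℕ => (4 : ℝ) * (1 / ((k : ℝ) ^ (3 / 2 : ℝ)))) :=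
      (Real.summable_one_div_nat_rpow.mpr (by norm_num)).mul_left 4
    refine Summable.of_norm_bounded_eventually_nat h2 ?_
    filter_upwards [eventually_ge_atTop 1] with k hk
    have hk' : (0 : ℝ) < k := by exact_mod_cast hk
    have hl2 : (1 / 2 : ℝ) ≤ Real.log 2 := by
      have := Real.log_two_gt_d9
      linarith
    rw [Real.norm_of_nonneg (by positivity), mul_one_div, div_le_div_iff₀ (by positivity) (by positivity),
      one_mul]
    have h3 : (k : ℝ) ^ (3 / 2 : ℝ) ≤ (2 * (1 + k * Real.log 2)) ^ (3 / 2 : ℝ) := by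
      apply Real.rpow_le_rpow hk'.le _ (by norm_num)
      nlinarith
    have h4 : (2 * (1 + k * Real.log 2)) ^ (3 / 2 : ℝ) =
        2 ^ (3 / 2 : ℝ) * (1 + k * Real.log 2) ^ (3 / 2 : ℝ) :=
      Real.mul_rpow (by norm_num) (by positivity)
    have h5 : (2 : ℝ) ^ (3 / 2 : ℝ) ≤ 4 := by
      calc (2 : ℝ) ^ (3 / 2 : ℝ) ≤ 2 ^ (2 : ℝ) :=
            Real.rpow_le_rpow_of_exponent_le (by norm_num) (by norm_num)
        _ = 4 := by norm_num
    rw [h4] at h3
    refine h3.trans ?_
    exact mul_le_mul_of_nonneg_right h5 (by positivity)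
  · intro m
    have := hlog m
    positivity
  · intro m n hm hmn
    have hm' : (0 : ℝ) < m := by exact_mod_cast hm
    have hmn' : (m : ℝ) ≤ n := by exact_mod_cast hmn
    have hl : Real.log m ≤ Real.log n := Real.log_le_log hm' hmn'
    have := hlog m
    apply one_div_le_one_div_of_le (by positivity)
    apply mul_le_mul hmn' _ (by positivity) (by positivity)
    apply Real.rpow_le_rpow (by positivity) (by linarith) (by norm_num)

theorem input_of_dav (h : Dav) : Nonempty Input := by
  obtain ⟨C, hC, hdav⟩ := h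
  refine ⟨⟨fun m => if m < 16 then (m : ℝ) else C * m / (Real.log m) ^ (3 / 4 : ℝ), ?_, ?_, ?_⟩⟩
  · intro m α
    split_ifs with hm
    · refine (norm_sum_le _ _).trans ?_
      calc ∑ l ∈ range m, ‖(mu l : ℂ) * Complex.exp (2 * Real.pi * Complex.I * (l * α))‖
          ≤ ∑ l ∈ range m, (1 : ℝ) := by
            apply sum_le_sum
            intro l _
            rw [norm_mul, Complex.norm_real, Real.norm_eq_abs]
            have : (2 * Real.pi * Complex.I * (l * α) : ℂ) = ((2 * Real.pi * (l * α) : ℝ) : ℂ) * Complex.I := by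
              push_cast; ring
            rw [this, Complex.norm_exp_ofReal_mul_I, mul_one]
            exact abs_mu_le l
        _ = m := by simp
    · have h1 := hdav m (by omega) α
      refine le_trans (le_of_eq ?_) h1
      congr 1
      apply sum_congr rfl
      intro l _
      unfold mu
      rw [mul_assoc (2 * (Real.pi : ℂ) * Complex.I)]
      norm_cast
  · have h1 : Tendsto (fun m : ℕ => C * ((Real.log m) ^ (3 / 4 : ℝ))⁻¹) atTop (𝓝 (C * 0)) := by
      apply Tendsto.const_mul
      apply tendsto_inv_atTop_zero.comp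
      exact (tendsto_rpow_atTop (by norm_num)).comp
        (Real.tendsto_log_atTop.comp tendsto_natCast_atTop_atTop)
    rw [mul_zero] at h1
    refine h1.congr' ?_
    filter_upwards [eventually_ge_atTop 16] with m hm
    rw [if_neg (by omega)]
    have hm' : (m : ℝ) ≠ 0 := by positivity
    field_simp
  · have h1 : Summable (fun m : ℕ => (4 * C ^ 2) * (1 / ((m : ℝ) * (1 + Real.log m) ^ (3 / 2 : ℝ)))) :=
      summ_log.mul_left _
    refine Summable.of_norm_bounded_eventually_nat h1 ?_
    filter_upwards [eventually_ge_atTop 16] with m hm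
    rw [if_neg (by omega)]
    have hm' : (0 : ℝ) < m := by positivity
    have hlog1 : 1 ≤ Real.log m := by
      rw [Real.le_log_iff_exp_le hm']
      have h2 := Real.exp_one_lt_d9
      have h3 : (16 : ℝ) ≤ m := by exact_mod_cast hm
      linarith
    rw [Real.norm_of_nonneg (by positivity)]
    have h2 : ((Real.log m) ^ (3 / 4 : ℝ)) ^ 2 = (Real.log m) ^ (3 / 2 : ℝ) := by
      rw [← Real.rpow_natCast, ← Real.rpow_mul (by linarith)]
      norm_num
    have h3 : (C * m / (Real.log m) ^ (3 / 4 : ℝ)) ^ 2 / (m : ℝ) ^ 3 =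
        C ^ 2 / (m * (Real.log m) ^ (3 / 2 : ℝ)) := by
      rw [div_pow, h2]
      field_simp
    rw [h3, mul_one_div, div_le_div_iff₀ (by positivity) (by positivity)]
    have h4 : (1 + Real.log m) ^ (3 / 2 : ℝ) ≤ 4 * (Real.log m) ^ (3 / 2 : ℝ) := by
      calc (1 + Real.log m) ^ (3 / 2 : ℝ) ≤ (2 * Real.log m) ^ (3 / 2 : ℝ) := by
            apply Real.rpow_le_rpow (by linarith) (by linarith) (by norm_num)
        _ = 2 ^ (3 / 2 : ℝ) * (Real.log m) ^ (3 / 2 : ℝ) := Real.mul_rpow (by norm_num) (by linarith)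
        _ ≤ 4 * (Real.log m) ^ (3 / 2 : ℝ) := by
            apply mul_le_mul_of_nonneg_right _ (by positivity)
            calc (2 : ℝ) ^ (3 / 2 : ℝ) ≤ 2 ^ (2 : ℝ) :=
                  Real.rpow_le_rpow_of_exponent_le (by norm_num) (by norm_num)
              _ = 4 := by norm_num
    calc C ^ 2 * (m * (1 + Real.log m) ^ (3 / 2 : ℝ)) ≤
          C ^ 2 * (m * (4 * (Real.log m) ^ (3 / 2 : ℝ))) := by
          apply mul_le_mul_of_nonneg_left _ (by positivity)
          exact mul_le_mul_of_nonneg_left h4 hm'.le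
      _ = 4 * C ^ 2 * (m * Real.log m ^ (3 / 2 : ℝ)) := by ring

end Pool.Agent.H901R2.MD
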